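import Mathlib
import Pool.Graph.R_pool_sql_team_seeded_620a6dc7.Helper423_Ceer.Bridge

/-!
# Definitions for the forcing construction of a degree in `Diag` without bounded DNC functions
-/

namespace Pool.Agent.H268.DG

open Nat.Partrec (Code)
open Nat.Partrec.Code Encodable Denumerable
open Helper423Ceer (orc pre Computes ComputesDiagonal InDiag NontrivialCeer MLRandom MLTest)

/-! ## Predicates which are c.e. in an oracle -/

/-- `Z` agrees with the finitely many requirements in the list `L`. -/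
def Cons (Z : ℕ → Bool) (L : List (ℕ × Bool)) : Prop := ∀ q ∈ L, Z q.1 = q.2

/-- The predicate `p` is c.e. in the oracle `Z`. -/
def Sg (Z : ℕ → Bool) {α : Type} [Primcodable α] (p : α → Prop) : Prop :=
  ∃ V : α × List (ℕ × Bool) → Prop, REPred V ∧ ∀ a, p a ↔ ∃ L, V (a, L) ∧ Cons Z L

/-- The class `K` is `Π⁰₁` in `Z`. -/
def PiC (Z : ℕ → Bool) (K : Set (ℕ → Bool)) : Prop :=
  ∃ W : List (ℕ × Bool) → Prop, Sg Z W ∧ ∀ e, e ∉ K ↔ ∃ L, W L ∧ Cons e L

/-- The family `K` of classes is uniformly `Π⁰₁` in `Z`. -/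
def PiF (Z : ℕ → Bool) {α : Type} [Primcodable α] (K : α → Set (ℕ → Bool)) : Prop :=
  ∃ W : α × List (ℕ × Bool) → Prop, Sg Z W ∧ ∀ a e, e ∉ K a ↔ ∃ L, W (a, L) ∧ Cons e L

/-! ## Strings -/

/-- The real coding the function `g`: the bit `⟨p, v⟩` says whether `g p = v`. -/
def cod (g : ℕ → ℕ) : ℕ → Bool := fun k => decide (g k.unpair.1 = k.unpair.2)

/-- The same for a finite string. -/
def codl (τ : List ℕ) : ℕ → Bool := fun k => decide (τ[k.unpair.1]? = some k.unpair.2)

/-- The functional `F` with the string `τ` as oracle gives the value `v` at `n`. -/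
def Red (F : ℕ →. ℕ) (τ : List ℕ) (n v : ℕ) : Prop :=
  ∃ s ≤ τ.length, v ∈ F (Nat.pair s (Nat.pair (pre (codl τ) s) n))

/-- The column `0` of the string `τ` codes the oracle `Z`. -/
def ZCol (Z : ℕ → Bool) (τ : List ℕ) : Prop :=
  ∀ x, Nat.pair 0 x < τ.length → τ.getD (Nat.pair 0 x) 0 = (Z x).toNat

/-- `Λ` is a list of pairs (label, index of an equivalence relation).  The point `e` of Cantor
space codes for every label `c` the function `x ↦ e ⟨c, x⟩`.  The string `τ` is `e`-good from the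
position `a` on if for every `(c, i)` in `Λ` and every position `⟨i + 1, x⟩ ≥ a` of `τ` the
function with label `c` separates the value of `τ` at this position from `x`. -/
def Gd (Λ : List (ℕ × ℕ)) (a : ℕ) (e : ℕ → Bool) (τ : List ℕ) : Prop :=
  ∀ q ∈ Λ, ∀ x, a ≤ Nat.pair (q.2 + 1) x → Nat.pair (q.2 + 1) x < τ.length →
    e (Nat.pair q.1 (τ.getD (Nat.pair (q.2 + 1) x) 0)) ≠ e (Nat.pair q.1 x)

/-! ## Blocks and conditions -/

/-- A block for the first `m` of the relations `E i`. -/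
structure Blk (Z : ℕ → Bool) (E : ℕ → ℕ → ℕ → Prop) (m : ℕ) where
  /-- the labels, each with the index of its relation -/
  Λ : List (ℕ × ℕ)
  /-- the class -/
  K : Set (ℕ → Bool)
  lab : ∀ q ∈ Λ, q.2 < m
  pi : PiC Z K
  ne : K.Nonempty
  inv : ∀ e ∈ K, ∀ q ∈ Λ, ∀ x y, E q.2 x y → e (Nat.pair q.1 x) = e (Nat.pair q.1 y)
  wit : ∀ j < m, ∀ s : ℕ → Bool, ∃ w, ∀ e ∈ K, ∀ q ∈ Λ, q.2 = j → e (Nat.pair q.1 w) = s q.1

/-- A condition: a string, a number `m` of active relations, a block with a label for every active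
relation. -/
structure Cond (Z : ℕ → Bool) (E : ℕ → ℕ → ℕ → Prop) where
  /-- the string -/
  σ : List ℕ
  /-- the number of active relations -/
  m : ℕ
  /-- the block -/
  B : Blk Z E m
  zc : ZCol Z σ
  act : ∀ j < m, ∃ q ∈ B.Λ, q.2 = j

variable {Z : ℕ → Bool} {E : ℕ → ℕ → ℕ → Prop}

/-- The string `τ` is permitted by the condition `p`. -/
def Ok (p : Cond Z E) (τ : List ℕ) : Prop :=
  p.σ <+: τ ∧ ZCol Z τ ∧ ∃ e ∈ p.B.K, Gd p.B.Λ p.σ.length e τ

/-- `q` extends `p`. -/
def Le (q p : Cond Z E) : Prop := ∀ τ, Ok q τ → Ok p τ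

/-- The substitution giving the `v`-th component of a point of a product. -/
def rho (v k : ℕ) : ℕ := Nat.pair (Nat.pair v k.unpair.1) k.unpair.2

/-- The labels of a product. -/
def PL (H : ℕ) (Λs : ℕ → List (ℕ × ℕ)) : List (ℕ × ℕ) :=
  (List.range H).flatMap fun v => (Λs v).map fun q => (Nat.pair v q.1, q.2)

/-! ## The notions of the final theorem -/

/-- The oracle `Z` computes no computably bounded diagonally noncomputable function. -/
def NoBdDnc (Z : ℕ → Bool) : Prop :=
  ∀ f h : ℕ → ℕ, Computable h → (∀ n, f n < h n) →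
    (∀ n, f n ∉ Code.eval (Denumerable.ofNat Code n) n) →
    ¬ TuringReducible (fun n => Part.some (f n)) (orc Z)

/-- `E` is an equivalence relation with at least two classes which is c.e. in `Z`. -/
def CeerIn (Z : ℕ → Bool) (E : ℕ → ℕ → Prop) : Prop :=
  Equivalence E ∧
    (∃ f : ℕ →. ℕ, TuringReducible f (orc Z) ∧ ∀ x y, E x y ↔ (f (Nat.pair x y)).Dom) ∧
    ∃ u v, ¬ E u v

end Pool.Agent.H268.DG
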