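import Mathlib
import Pool.Agent.H268.DG.Defs

/-!
# T1: closure properties of `REPred`

`REPred V` (Mathlib) is `Partrec fun a => Part.assert (V a) fun _ => Part.some ()`.

* `re_iff`: normal form. (→) `Partrec` unfolds to a `Nat.Partrec` function, take a code `c` for it
  (`Code.exists_code`); `V a ↔ (eval c (encode a)).Dom ↔ ∃ k, (evaln k c (encode a)).isSome`
  (`evaln_sound`, `evaln_complete`), and `primrec_evaln`.  (←) `Partrec.rfind` / `Partrec.rfindOpt`.
* The other lemmas follow with `re_iff`: for `re_ex` code the pair (witness, `k`) by one number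
  (use `decode`), for `re_all_list` note
  `(∀ b ∈ l, ∃ k, R (a, b) k) ↔ ∃ K, ∀ b ∈ l, ∃ k ∈ List.range K, R (a, b) k` (finite maximum) and use
  `PrimrecRel.forall_mem_list`, `PrimrecRel.exists_mem_list` (as in
  `Pool/Graph/R_pool_sql_team_seeded_620a6dc7/Helper423_Ceer/Decide.lean`, `prim_seen`).
-/

namespace Pool.Agent.H268.DG

open Nat.Partrec (Code)
open Nat.Partrec.Code Encodable Denumerable

theorem re_iff {α : Type} [Primcodable α] {V : α → Prop} :
    REPred V ↔ ∃ R : α → ℕ → Prop, PrimrecRel R ∧ ∀ a, V a ↔ ∃ k, R a k := by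
  classical
  constructor
  · intro h
    obtain ⟨c, hc⟩ := exists_code.1 (show Nat.Partrec fun n => Part.bind (decode (α := α) n)
      fun a => ((Part.assert (V a) fun _ => Part.some ()) : Part Unit).map encode from h)
    refine ⟨fun a k => (evaln k c (encode a)).isSome = true, ?_, fun a => ?_⟩
    · have h1 : Primrec fun x : α × ℕ => (evaln x.2 c (encode x.1)).isSome :=
        Primrec.option_isSome.comp (primrec_evaln.comp
          ((Primrec.snd.pair (Primrec.const c)).pair (Primrec.encode.comp Primrec.fst)))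
      exact Primrec.primrecPred (h1.of_eq fun x => by simp)
    · have h2 : V a ↔ ∃ x, x ∈ eval c (encode a) := by
        rw [hc]
        simp [Part.mem_assert_iff]
      rw [h2]
      constructor
      · rintro ⟨x, hx⟩
        obtain ⟨k, hk⟩ := evaln_complete.1 hx
        exact ⟨k, Option.isSome_iff_exists.2 ⟨x, hk⟩⟩
      · rintro ⟨k, hk⟩
        obtain ⟨x, hx⟩ := Option.isSome_iff_exists.1 hk
        exact ⟨x, evaln_sound hx⟩
  · rintro ⟨R, hR, hV⟩
    have h1 : Primrec₂ fun (a : α) (k : ℕ) => if R a k then some () else none :=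
      Primrec.ite (c := fun x : α × ℕ => R x.1 x.2) hR (Primrec.const _) (Primrec.const _)
    have h2 : Partrec fun a => Nat.rfindOpt fun k => if R a k then some () else none :=
      Partrec.rfindOpt h1.to_comp
    refine h2.dom_re.of_eq fun a => ?_
    rw [Nat.rfindOpt_dom, hV]
    refine exists_congr fun k => ?_
    constructor
    · rintro ⟨x, hx⟩
      by_contra hcon
      rw [if_neg hcon] at hx
      exact absurd hx (by simp)
    · intro h
      exact ⟨(), by rw [if_pos h]; rfl⟩

theorem re_comp {α β : Type} [Primcodable α] [Primcodable β] {V : α → Prop} {f : β → α}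
    (h : REPred V) (hf : Computable f) : REPred (fun b => V (f b)) :=
  Partrec.comp h hf

theorem re_and {α : Type} [Primcodable α] {V W : α → Prop} (h : REPred V) (h' : REPred W) :
    REPred (fun a => V a ∧ W a) := by
  obtain ⟨R, hR, hV⟩ := re_iff.1 h
  obtain ⟨S, hS, hW⟩ := re_iff.1 h'
  refine re_iff.2 ⟨fun a k => R a k.unpair.1 ∧ S a k.unpair.2, ?_, fun a => ?_⟩
  · exact PrimrecPred.and
      (hR.comp Primrec.fst (Primrec.fst.comp (Primrec.unpair.comp Primrec.snd)))
      (hS.comp Primrec.fst (Primrec.snd.comp (Primrec.unpair.comp Primrec.snd)))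
  · rw [hV, hW]
    constructor
    · rintro ⟨⟨k, hk⟩, l, hl⟩
      refine ⟨Nat.pair k l, ?_⟩
      change R a (Nat.pair k l).unpair.1 ∧ S a (Nat.pair k l).unpair.2
      rw [Nat.unpair_pair]
      exact ⟨hk, hl⟩
    · rintro ⟨k, h1, h2⟩
      exact ⟨⟨_, h1⟩, _, h2⟩

theorem re_or {α : Type} [Primcodable α] {V W : α → Prop} (h : REPred V) (h' : REPred W) :
    REPred (fun a => V a ∨ W a) := by
  obtain ⟨R, hR, hV⟩ := re_iff.1 h
  obtain ⟨S, hS, hW⟩ := re_iff.1 h'
  refine re_iff.2 ⟨fun a k => R a k ∨ S a k, PrimrecPred.or hR hS, fun a => ?_⟩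
  rw [hV, hW, exists_or]

theorem re_ex {α β : Type} [Primcodable α] [Primcodable β] {V : α × β → Prop} (h : REPred V) :
    REPred (fun a => ∃ b, V (a, b)) := by
  classical
  obtain ⟨R, hR, hV⟩ := re_iff.1 h
  let g : α × ℕ → Bool := fun x =>
    Option.casesOn (decode (α := β) x.2.unpair.1) false fun b => decide (R (x.1, b) x.2.unpair.2)
  have hg : Primrec g := by
    refine Primrec.option_casesOn
      (Primrec.decode.comp (Primrec.fst.comp (Primrec.unpair.comp Primrec.snd)))
      (Primrec.const false) ?_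
    exact (PrimrecPred.decide (hR.comp
      ((Primrec.fst.comp Primrec.fst).pair Primrec.snd)
      (Primrec.snd.comp (Primrec.unpair.comp (Primrec.snd.comp Primrec.fst)))) :
        Primrec fun y : (α × ℕ) × β => decide (R (y.1.1, y.2) y.1.2.unpair.2))
  have hg' : PrimrecPred fun x : α × ℕ => g x = true :=
    PrimrecRel.comp Primrec.eq hg (Primrec.const true)
  refine re_iff.2 ⟨fun a k => g (a, k) = true, hg', fun a => ?_⟩
  constructor
  · rintro ⟨b, hb⟩
    obtain ⟨k, hk⟩ := (hV _).1 hb
    refine ⟨Nat.pair (encode b) k, ?_⟩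
    simp only [g, Nat.unpair_pair, encodek]
    exact decide_eq_true hk
  · rintro ⟨n, hn⟩
    simp only [g] at hn
    cases hd : decode (α := β) n.unpair.1 with
    | none =>
      rw [hd] at hn
      exact absurd hn (by simp)
    | some b =>
      rw [hd] at hn
      exact ⟨b, (hV _).2 ⟨_, of_decide_eq_true hn⟩⟩

theorem re_all_list {α β : Type} [Primcodable α] [Primcodable β] {V : α × β → Prop}
    (h : REPred V) : REPred (fun x : α × List β => ∀ b ∈ x.2, V (x.1, b)) := by
  classical
  obtain ⟨R, hR, hV⟩ := re_iff.1 h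
  -- the bounded statement
  have h1 : PrimrecRel fun (L : List ℕ) (y : α × β) => ∃ k ∈ L, R y k :=
    PrimrecRel.exists_mem_list (R := fun (k : ℕ) (y : α × β) => R y k)
      (hR.comp Primrec.snd Primrec.fst)
  have h2 : PrimrecRel fun (b : β) (z : α × ℕ) => ∃ k ∈ List.range z.2, R (z.1, b) k :=
    h1.comp (Primrec.list_range.comp (Primrec.snd.comp Primrec.snd))
      ((Primrec.fst.comp Primrec.snd).pair Primrec.fst)
  have h3 : PrimrecRel fun (L : List β) (z : α × ℕ) =>
      ∀ b ∈ L, ∃ k ∈ List.range z.2, R (z.1, b) k :=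
    PrimrecRel.forall_mem_list (R := fun (b : β) (z : α × ℕ) =>
      ∃ k ∈ List.range z.2, R (z.1, b) k) h2
  refine re_iff.2 ⟨fun x K => ∀ b ∈ x.2, ∃ k ∈ List.range K, R (x.1, b) k,
    h3.comp (Primrec.snd.comp Primrec.fst)
      ((Primrec.fst.comp Primrec.fst).pair Primrec.snd), fun x => ?_⟩
  constructor
  · intro hx
    have h4 : ∀ L : List β, (∀ b ∈ L, V (x.1, b)) →
        ∃ K, ∀ b ∈ L, ∃ k ∈ List.range K, R (x.1, b) k := by
      intro L
      induction L with
      | nil => exact fun _ => ⟨0, fun b hb => absurd hb (by simp)⟩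
      | cons b L ih =>
        intro hL
        obtain ⟨K, hK⟩ := ih fun b' hb' => hL b' (List.mem_cons_of_mem _ hb')
        obtain ⟨k, hk⟩ := (hV _).1 (hL b List.mem_cons_self)
        refine ⟨max K (k + 1), fun b' hb' => ?_⟩
        rcases List.mem_cons.1 hb' with rfl | hb'
        · exact ⟨k, List.mem_range.2 (by omega), hk⟩
        · obtain ⟨k', hk', hR'⟩ := hK b' hb'
          exact ⟨k', List.mem_range.2 (by have := List.mem_range.1 hk'; omega), hR'⟩
    exact h4 x.2 hx
  · rintro ⟨K, hK⟩ b hb
    obtain ⟨k, -, hk⟩ := hK b hb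
    exact (hV _).2 ⟨k, hk⟩

theorem re_prim {α : Type} [Primcodable α] {V : α → Prop} (h : PrimrecPred V) : REPred V :=
  re_iff.2 ⟨fun a _ => V a, PrimrecPred.comp h Primrec.fst,
    fun _ => ⟨fun ha => ⟨0, ha⟩, fun ⟨_, ha⟩ => ha⟩⟩

/-- The graph of a partial recursive function is c.e. -/
theorem re_graph {α β : Type} [Primcodable α] [Primcodable β] {f : α →. β} (h : Partrec f) :
    REPred (fun x : α × β => x.2 ∈ f x.1) := by
  classical
  have h1 : Partrec fun x : α × β => f x.1 := h.comp Computable.fst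
  have h2 : Primrec₂ fun (x : α × β) (b : β) => if b = x.2 then some () else none :=
    Primrec.ite (c := fun y : (α × β) × β => y.2 = y.1.2)
      (Primrec.eq.comp Primrec.snd (Primrec.snd.comp Primrec.fst)) (Primrec.const _)
      (Primrec.const _)
  have h3 : Partrec₂ fun (x : α × β) (b : β) =>
      ((if b = x.2 then some () else none : Option Unit) : Part Unit) :=
    Computable.ofOption h2.to_comp
  refine (h1.bind h3).dom_re.of_eq fun x => ?_
  rw [Part.dom_iff_mem]
  constructor
  · rintro ⟨y, hy⟩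
    obtain ⟨b, hb, hb'⟩ := Part.mem_bind_iff.1 hy
    by_cases hbx : b = x.2
    · rw [← hbx]
      exact hb
    · simp [hbx] at hb'
  · intro hx
    exact ⟨(), Part.mem_bind_iff.2 ⟨x.2, hx, by simp⟩⟩

end Pool.Agent.H268.DG
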