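import Mathlib
import Pool.Agent.H268.DG.T1

/-!
# T2: closure properties of `Sg Z` (c.e. in the oracle `Z`)
-/

namespace Pool.Agent.H268.DG

open Nat.Partrec (Code)
open Nat.Partrec.Code Encodable Denumerable

variable {Z : ℕ → Bool}

private lemma prim_mem : PrimrecRel (fun (q : ℕ × Bool) (L : List (ℕ × Bool)) => q ∈ L) := by
  have h1 : PrimrecRel (fun (a b : ℕ × Bool) => a = b) := Primrec.eq
  have h2 : PrimrecRel (fun (L : List (ℕ × Bool)) (b : ℕ × Bool) => ∃ a ∈ L, a = b) :=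
    h1.exists_mem_list
  have h3 : PrimrecRel (fun (b : ℕ × Bool) (L : List (ℕ × Bool)) => ∃ a ∈ L, a = b) := h2.swap
  exact h3.of_eq (fun q L => by simp)

private lemma prim_sub : PrimrecRel (fun (L' L : List (ℕ × Bool)) => ∀ q ∈ L', q ∈ L) :=
  prim_mem.forall_mem_list

private lemma re_sub {α : Type} [Primcodable α] {V : α × List (ℕ × Bool) → Prop}
    (hV : REPred V) :
    REPred (fun x : α × List (ℕ × Bool) => ∃ L', (∀ q ∈ L', q ∈ x.2) ∧ V (x.1, L')) := by
  have h1 : REPred (fun y : (α × List (ℕ × Bool)) × List (ℕ × Bool) =>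
      (∀ q ∈ y.2, q ∈ y.1.2) ∧ V (y.1.1, y.2)) := by
    refine re_and ?_ ?_
    · refine re_prim ?_
      exact PrimrecRel.comp prim_sub Primrec.snd (Primrec.snd.comp Primrec.fst)
    · exact re_comp (V := V) hV
        ((Computable.fst.comp Computable.fst).pair Computable.snd)
  exact re_ex h1

theorem sg_re {α : Type} [Primcodable α] {p : α → Prop} (h : REPred p) : Sg Z p :=
  ⟨fun x => p x.1, re_comp h Computable.fst, fun _ =>
    ⟨fun ha => ⟨[], ha, fun _ hq => absurd hq List.not_mem_nil⟩, fun ⟨_, ha, _⟩ => ha⟩⟩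

theorem sg_iff {α : Type} [Primcodable α] {p q : α → Prop} (h : Sg Z p) (hpq : ∀ a, q a ↔ p a) :
    Sg Z q := by
  obtain ⟨V, hV, h1⟩ := h
  exact ⟨V, hV, fun a => (hpq a).trans (h1 a)⟩

theorem sg_comp {α β : Type} [Primcodable α] [Primcodable β] {p : α → Prop} {f : β → α}
    (h : Sg Z p) (hf : Computable f) : Sg Z (fun b => p (f b)) := by
  obtain ⟨V, hV, h1⟩ := h
  exact ⟨fun x => V (f x.1, x.2),
    re_comp (V := V) hV ((hf.comp Computable.fst).pair Computable.snd), fun b => h1 (f b)⟩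

theorem sg_and {α : Type} [Primcodable α] {p q : α → Prop} (h : Sg Z p) (h' : Sg Z q) :
    Sg Z (fun a => p a ∧ q a) := by
  obtain ⟨V, hV, h1⟩ := h
  obtain ⟨W, hW, h2⟩ := h'
  refine ⟨fun x => (∃ L', (∀ q ∈ L', q ∈ x.2) ∧ V (x.1, L')) ∧
    (∃ L', (∀ q ∈ L', q ∈ x.2) ∧ W (x.1, L')), re_and (re_sub hV) (re_sub hW), fun a => ?_⟩
  constructor
  · rintro ⟨ha, hb⟩
    obtain ⟨L1, v1, c1⟩ := (h1 a).1 ha
    obtain ⟨L2, v2, c2⟩ := (h2 a).1 hb
    refine ⟨L1 ++ L2, ⟨⟨L1, fun q hq => List.mem_append_left _ hq, v1⟩,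
      ⟨L2, fun q hq => List.mem_append_right _ hq, v2⟩⟩, ?_⟩
    intro q hq
    rcases List.mem_append.1 hq with h | h
    · exact c1 q h
    · exact c2 q h
  · rintro ⟨L, ⟨⟨L1, s1, v1⟩, ⟨L2, s2, v2⟩⟩, c⟩
    exact ⟨(h1 a).2 ⟨L1, v1, fun q hq => c q (s1 q hq)⟩,
      (h2 a).2 ⟨L2, v2, fun q hq => c q (s2 q hq)⟩⟩

theorem sg_or {α : Type} [Primcodable α] {p q : α → Prop} (h : Sg Z p) (h' : Sg Z q) :
    Sg Z (fun a => p a ∨ q a) := by
  obtain ⟨V, hV, h1⟩ := h
  obtain ⟨W, hW, h2⟩ := h'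
  refine ⟨fun x => V x ∨ W x, re_or hV hW, fun a => ?_⟩
  constructor
  · rintro (ha | hb)
    · obtain ⟨L1, v1, c1⟩ := (h1 a).1 ha
      exact ⟨L1, Or.inl v1, c1⟩
    · obtain ⟨L2, v2, c2⟩ := (h2 a).1 hb
      exact ⟨L2, Or.inr v2, c2⟩
  · rintro ⟨L, v | v, c⟩
    · exact Or.inl ((h1 a).2 ⟨L, v, c⟩)
    · exact Or.inr ((h2 a).2 ⟨L, v, c⟩)

theorem sg_ex {α β : Type} [Primcodable α] [Primcodable β] {p : α × β → Prop} (h : Sg Z p) :
    Sg Z (fun a => ∃ b, p (a, b)) := by
  obtain ⟨V, hV, h1⟩ := h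
  refine ⟨fun x => ∃ b, V ((x.1, b), x.2), ?_, fun a => ?_⟩
  · have h2 : REPred (fun y : (α × List (ℕ × Bool)) × β => V ((y.1.1, y.2), y.1.2)) :=
      re_comp (V := V) hV (((Computable.fst.comp Computable.fst).pair Computable.snd).pair
        (Computable.snd.comp Computable.fst))
    exact re_ex h2
  · constructor
    · rintro ⟨b, hb⟩
      obtain ⟨L, v, c⟩ := (h1 (a, b)).1 hb
      exact ⟨L, ⟨b, v⟩, c⟩
    · rintro ⟨L, ⟨b, v⟩, c⟩
      exact ⟨b, (h1 (a, b)).2 ⟨L, v, c⟩⟩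

theorem sg_all_list {α β : Type} [Primcodable α] [Primcodable β] {p : α × β → Prop}
    (h : Sg Z p) : Sg Z (fun x : α × List β => ∀ b ∈ x.2, p (x.1, b)) := by
  obtain ⟨V, hV, h1⟩ := h
  refine ⟨fun x => ∀ b ∈ x.1.2, ∃ L', (∀ q ∈ L', q ∈ x.2) ∧ V ((x.1.1, b), L'), ?_, ?_⟩
  · have h2 := re_sub hV
    have h3 : REPred (fun y : (α × List (ℕ × Bool)) × β =>
        ∃ L', (∀ q ∈ L', q ∈ y.1.2) ∧ V ((y.1.1, y.2), L')) :=
      re_comp (V := fun x : (α × β) × List (ℕ × Bool) =>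
        ∃ L', (∀ q ∈ L', q ∈ x.2) ∧ V (x.1, L')) h2
        (((Computable.fst.comp Computable.fst).pair Computable.snd).pair
        (Computable.snd.comp Computable.fst))
    have h4 := re_all_list h3
    exact re_comp h4 (((Computable.fst.comp Computable.fst).pair Computable.snd).pair
      (Computable.snd.comp Computable.fst))
  · rintro ⟨a, l⟩
    constructor
    · intro hl
      simp only at hl ⊢
      induction l with
      | nil => exact ⟨[], fun b hb => absurd hb List.not_mem_nil,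
          fun q hq => absurd hq List.not_mem_nil⟩
      | cons b l ih =>
        obtain ⟨L, h3, h4⟩ := ih (fun b hb => hl b (List.mem_cons_of_mem _ hb))
        obtain ⟨L1, v1, c1⟩ := (h1 (a, b)).1 (hl b List.mem_cons_self)
        refine ⟨L1 ++ L, ?_, ?_⟩
        · intro b' hb'
          rcases List.mem_cons.1 hb' with rfl | hb'
          · exact ⟨L1, fun q hq => List.mem_append_left _ hq, v1⟩
          · obtain ⟨L', h5, h6⟩ := h3 b' hb'
            exact ⟨L', fun q hq => List.mem_append_right _ (h5 q hq), h6⟩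
        · intro q hq
          rcases List.mem_append.1 hq with h | h
          · exact c1 q h
          · exact h4 q h
    · rintro ⟨L, h3, h4⟩ b hb
      obtain ⟨L', h5, h6⟩ := h3 b hb
      exact (h1 (a, b)).2 ⟨L', h6, fun q hq => h4 q (h5 q hq)⟩

private lemma re_false {α : Type} [Primcodable α] : REPred (fun _ : α => False) := by
  refine re_prim ⟨fun _ => instDecidableFalse, ?_⟩
  exact Primrec.const false

private lemma re_true {α : Type} [Primcodable α] : REPred (fun _ : α => True) := by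
  refine re_prim ⟨fun _ => instDecidableTrue, ?_⟩
  exact Primrec.const true

theorem sg_exists_mem {α β : Type} [Primcodable α] (Λ : List β) (p : β → α → Prop)
    (h : ∀ b ∈ Λ, Sg Z (p b)) : Sg Z (fun a => ∃ b ∈ Λ, p b a) := by
  induction Λ with
  | nil => exact sg_iff (sg_re re_false) (fun a => by simp)
  | cons b Λ ih =>
    refine sg_iff (sg_or (h b List.mem_cons_self)
      (ih (fun b hb => h b (List.mem_cons_of_mem _ hb)))) (fun a => ?_)
    simp

theorem sg_forall_mem {α β : Type} [Primcodable α] (Λ : List β) (p : β → α → Prop)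
    (h : ∀ b ∈ Λ, Sg Z (p b)) : Sg Z (fun a => ∀ b ∈ Λ, p b a) := by
  induction Λ with
  | nil => exact sg_iff (sg_re re_true) (fun a => by simp)
  | cons b Λ ih =>
    refine sg_iff (sg_and (h b List.mem_cons_self)
      (ih (fun b hb => h b (List.mem_cons_of_mem _ hb)))) (fun a => ?_)
    simp

/-- Agreement of `Z` with a list is c.e. in `Z`. -/
theorem sg_cons_oracle : Sg Z (fun L : List (ℕ × Bool) => Cons Z L) := by
  refine ⟨fun x => x.2 = x.1, ?_, fun L => ?_⟩
  · refine re_prim ?_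
    exact PrimrecRel.comp Primrec.eq Primrec.snd Primrec.fst
  · constructor
    · intro h
      exact ⟨L, rfl, h⟩
    · rintro ⟨L', h1, h2⟩
      simp only at h1
      rw [← h1]
      exact h2

end Pool.Agent.H268.DG
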