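import Mathlib
import Pool.Agent.H268.DG.T2

/-!
# T5: closure properties of `Π⁰₁` classes

`T1.lean`, `T2.lean` may be used.

* `pi_cons`: `W' L := W L ∨ ∃ q ∈ L₀, L = [(q.1, !q.2)]` (`sg_or`, `sg_exists_mem`).
* `pif_type`: `W' (y, L) := W L ∨ ∃ q ∈ Λ, q.2 = j ∧ L = [(Nat.pair q.1 y, !s q.1)]`; the second part is a finite
  disjunction (`sg_exists_mem`) of computable predicates of `(y, L)` (`s q.1` is a constant for
  every `q` of the fixed list `Λ`).
* `pif_fix`: fix the argument of a family.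
* `pi_prod`: `W' L := ∃ v < H, ∃ L₀, W v L₀ ∧ L = L₀.map (fun q => (rho v q.1, q.2))`
  (`sg_exists_mem` with the list `List.range H`, `sg_ex`, `sg_and`), since
  `Cons (fun k => e (rho v k)) L₀ ↔ Cons e (L₀.map (fun q => (rho v q.1, q.2)))`.
* `pi_ke` (the class of the functions which are invariant under the relation `R`, take the value `false`
  at `a` and `true` at `b`):
  `W L := (∃ x y b', R (x, y) ∧ L = [(pair 0 x, b'), (pair 0 y, !b')]) ∨ L = [(pair 0 a, true)] ∨ L = [(pair 0 b, false)]`.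
-/

namespace Pool.Agent.H268.DG

open Nat.Partrec (Code)
open Nat.Partrec.Code Encodable Denumerable

variable {Z : ℕ → Bool}

theorem pi_cons {K : Set (ℕ → Bool)} (h : PiC Z K) (L₀ : List (ℕ × Bool)) :
    PiC Z {e | e ∈ K ∧ Cons e L₀} := by
  obtain ⟨W, hW, hK⟩ := h
  refine ⟨fun L => W L ∨ ∃ q ∈ L₀, L = [(q.1, !q.2)], ?_, ?_⟩
  · refine sg_or hW (sg_exists_mem L₀ (fun q L => L = [(q.1, !q.2)]) fun q _ => ?_)
    exact sg_re (re_prim (Primrec.eq.comp Primrec.id (Primrec.const _)))
  · intro e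
    rw [Set.mem_ofPred_eq, not_and_or, hK]
    constructor
    · rintro (⟨L, hL, he⟩ | hc)
      · exact ⟨L, Or.inl hL, he⟩
      · unfold Cons at hc
        push Not at hc
        obtain ⟨q, hq, hne⟩ := hc
        refine ⟨[(q.1, !q.2)], Or.inr ⟨q, hq, rfl⟩, ?_⟩
        intro r hr
        rw [List.mem_singleton] at hr
        rw [hr]
        simp only
        cases h1 : e q.1 <;> cases h2 : q.2 <;> simp_all
    · rintro ⟨L, hL | ⟨q, hq, rfl⟩, he⟩
      · exact Or.inl ⟨L, hL, he⟩
      · right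
        intro hc
        have h1 := hc q hq
        have h2 := he (q.1, !q.2) (List.mem_singleton.mpr rfl)
        simp only at h2
        rw [h1] at h2
        exact absurd h2 (by simp)

theorem pif_type {K : Set (ℕ → Bool)} (h : PiC Z K) (Λ : List (ℕ × ℕ)) (j : ℕ) (s : ℕ → Bool) :
    PiF Z (fun y : ℕ => {e | e ∈ K ∧ ∀ q ∈ Λ, q.2 = j → e (Nat.pair q.1 y) = s q.1}) := by
  obtain ⟨W, hW, hK⟩ := h
  refine ⟨fun x => W x.2 ∨ ∃ q ∈ Λ, q.2 = j ∧ x.2 = [(Nat.pair q.1 x.1, !s q.1)], ?_, ?_⟩
  · refine sg_or (sg_comp hW Computable.snd)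
      (sg_exists_mem Λ (fun q (x : ℕ × List (ℕ × Bool)) =>
        q.2 = j ∧ x.2 = [(Nat.pair q.1 x.1, !s q.1)]) fun q _ => ?_)
    refine sg_re (re_prim (PrimrecPred.and (Primrec.eq.comp (Primrec.const _) (Primrec.const _))
      (Primrec.eq.comp Primrec.snd ?_)))
    exact Primrec.list_cons.comp (Primrec.pair (Primrec₂.natPair.comp (Primrec.const _) Primrec.fst)
      (Primrec.const _)) (Primrec.const _)
  · intro y e
    rw [Set.mem_ofPred_eq, not_and_or, hK]
    constructor
    · rintro (⟨L, hL, he⟩ | hc)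
      · exact ⟨L, Or.inl hL, he⟩
      · push Not at hc
        obtain ⟨q, hq, hj, hne⟩ := hc
        refine ⟨[(Nat.pair q.1 y, !s q.1)], Or.inr ⟨q, hq, hj, rfl⟩, ?_⟩
        intro r hr
        rw [List.mem_singleton] at hr
        rw [hr]
        simp only
        cases h1 : e (Nat.pair q.1 y) <;> cases h2 : s q.1 <;> simp_all
    · rintro ⟨L, hL | ⟨q, hq, hj, hL⟩, he⟩
      · exact Or.inl ⟨L, hL, he⟩
      · right
        intro hc
        simp only at hL
        subst hL
        have h1 := hc q hq hj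
        have h2 := he (Nat.pair q.1 y, !s q.1) (List.mem_singleton.mpr rfl)
        simp only at h2
        rw [h1] at h2
        exact absurd h2 (by simp)

theorem pif_fix {α : Type} [Primcodable α] {K : α → Set (ℕ → Bool)} (h : PiF Z K) (a : α) :
    PiC Z (K a) := by
  obtain ⟨W, hW, hK⟩ := h
  exact ⟨fun L => W (a, L), sg_comp hW (Computable.pair (Computable.const a) Computable.id),
    fun e => hK a e⟩

theorem pi_prod (H : ℕ) (Ks : ℕ → Set (ℕ → Bool)) (h : ∀ v < H, PiC Z (Ks v)) :
    PiC Z {e | ∀ v < H, (fun k => e (rho v k)) ∈ Ks v} := by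
  classical
  have h' : ∀ v, ∃ W : List (ℕ × Bool) → Prop, v < H → Sg Z W ∧
      ∀ e, e ∉ Ks v ↔ ∃ L, W L ∧ Cons e L := by
    intro v
    by_cases hv : v < H
    · obtain ⟨W, hW⟩ := h v hv
      exact ⟨W, fun _ => hW⟩
    · exact ⟨fun _ => False, fun h => absurd h hv⟩
  choose W hW using h'
  have hcons : ∀ (v : ℕ) (e : ℕ → Bool) (L₀ : List (ℕ × Bool)),
      Cons (fun k => e (rho v k)) L₀ ↔ Cons e (L₀.map fun q => (rho v q.1, q.2)) := by
    intro v e L₀
    unfold Cons
    simp only [List.forall_mem_map]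
  have hrho : ∀ v, Primrec (rho v) := by
    intro v
    unfold rho
    exact Primrec₂.natPair.comp (Primrec₂.natPair.comp (Primrec.const v)
      (Primrec.fst.comp Primrec.unpair)) (Primrec.snd.comp Primrec.unpair)
  refine ⟨fun L => ∃ v ∈ List.range H, ∃ L₀, W v L₀ ∧ L = L₀.map fun q => (rho v q.1, q.2),
    ?_, ?_⟩
  · refine sg_exists_mem (List.range H) (fun v L => ∃ L₀, W v L₀ ∧
      L = L₀.map fun q => (rho v q.1, q.2)) fun v hv => ?_
    have h1 := (hW v (List.mem_range.mp hv)).1
    have h2 : Sg Z (fun x : List (ℕ × Bool) × List (ℕ × Bool) =>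
        W v x.2 ∧ x.1 = x.2.map fun q => (rho v q.1, q.2)) := by
      refine sg_and (sg_comp h1 Computable.snd) (sg_re (re_prim (Primrec.eq.comp Primrec.fst ?_)))
      exact Primrec.list_map Primrec.snd (Primrec.pair ((hrho v).comp (Primrec.fst.comp Primrec.snd))
        (Primrec.snd.comp Primrec.snd)).to₂
    exact sg_ex h2
  · intro e
    rw [Set.mem_ofPred_eq]
    push Not
    constructor
    · rintro ⟨v, hv, he⟩
      obtain ⟨L₀, hL, hc⟩ := ((hW v hv).2 _).mp he
      exact ⟨_, ⟨v, List.mem_range.mpr hv, L₀, hL, rfl⟩, (hcons v e L₀).mp hc⟩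
    · rintro ⟨L, ⟨v, hv, L₀, hL, rfl⟩, hc⟩
      have hv' := List.mem_range.mp hv
      exact ⟨v, hv', ((hW v hv').2 _).mpr ⟨L₀, hL, (hcons v e L₀).mpr hc⟩⟩

theorem pi_ke {R : ℕ × ℕ → Prop} (h : Sg Z R) (a b : ℕ) :
    PiC Z {e | (∀ x y, R (x, y) → e (Nat.pair 0 x) = e (Nat.pair 0 y)) ∧
      e (Nat.pair 0 a) = false ∧ e (Nat.pair 0 b) = true} := by
  refine ⟨fun L => (∃ t : (ℕ × ℕ) × Bool, R t.1 ∧
    L = [(Nat.pair 0 t.1.1, t.2), (Nat.pair 0 t.1.2, !t.2)]) ∨
    (L = [(Nat.pair 0 a, true)] ∨ L = [(Nat.pair 0 b, false)]), ?_, ?_⟩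
  · refine sg_or ?_ (sg_or ?_ ?_)
    · have h2 : Sg Z (fun x : List (ℕ × Bool) × ((ℕ × ℕ) × Bool) => R x.2.1 ∧
          x.1 = [(Nat.pair 0 x.2.1.1, x.2.2), (Nat.pair 0 x.2.1.2, !x.2.2)]) := by
        refine sg_and (sg_comp h (Computable.fst.comp Computable.snd))
          (sg_re (re_prim (Primrec.eq.comp Primrec.fst ?_)))
        refine Primrec.list_cons.comp (Primrec.pair (Primrec₂.natPair.comp (Primrec.const 0)
          (Primrec.fst.comp (Primrec.fst.comp Primrec.snd))) (Primrec.snd.comp Primrec.snd))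
          (Primrec.list_cons.comp (Primrec.pair (Primrec₂.natPair.comp (Primrec.const 0)
          (Primrec.snd.comp (Primrec.fst.comp Primrec.snd)))
          (Primrec.not.comp (Primrec.snd.comp Primrec.snd))) (Primrec.const _))
      exact sg_ex h2
    · exact sg_re (re_prim (Primrec.eq.comp Primrec.id (Primrec.const _)))
    · exact sg_re (re_prim (Primrec.eq.comp Primrec.id (Primrec.const _)))
  · intro e
    rw [Set.mem_ofPred_eq, not_and_or, not_and_or]
    constructor
    · rintro (hc | hc | hc)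
      · push Not at hc
        obtain ⟨x, y, hxy, hne⟩ := hc
        refine ⟨[(Nat.pair 0 x, e (Nat.pair 0 x)), (Nat.pair 0 y, !e (Nat.pair 0 x))],
          Or.inl ⟨((x, y), e (Nat.pair 0 x)), hxy, rfl⟩, ?_⟩
        intro r hr
        simp only [List.mem_cons, List.not_mem_nil, or_false] at hr
        rcases hr with rfl | rfl
        · rfl
        · simp only
          cases h1 : e (Nat.pair 0 x) <;> cases h2 : e (Nat.pair 0 y) <;> simp_all
      · refine ⟨[(Nat.pair 0 a, true)], Or.inr (Or.inl rfl), ?_⟩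
        intro r hr
        rw [List.mem_singleton] at hr
        rw [hr]
        simp only
        cases h1 : e (Nat.pair 0 a) <;> simp_all
      · refine ⟨[(Nat.pair 0 b, false)], Or.inr (Or.inr rfl), ?_⟩
        intro r hr
        rw [List.mem_singleton] at hr
        rw [hr]
        simp only
        cases h1 : e (Nat.pair 0 b) <;> simp_all
    · rintro ⟨L, ⟨t, ht, rfl⟩ | rfl | rfl, he⟩
      · left
        intro hc
        have h1 := hc t.1.1 t.1.2 ht
        have h2 := he (Nat.pair 0 t.1.1, t.2) (by simp)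
        have h3 := he (Nat.pair 0 t.1.2, !t.2) (by simp)
        simp only at h2 h3
        rw [h2, h3] at h1
        exact absurd h1 (by simp)
      · right; left
        intro hc
        have h2 := he (Nat.pair 0 a, true) (by simp)
        simp only at h2
        rw [hc] at h2
        exact absurd h2 (by simp)
      · right; right
        intro hc
        have h2 := he (Nat.pair 0 b, false) (by simp)
        simp only at h2
        rw [hc] at h2
        exact absurd h2 (by simp)

end Pool.Agent.H268.DG
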