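import Mathlib
import Pool.Agent.H268.DG.T5

/-!
# T10: extending the string of a condition

`T1.lean`, `T2.lean`, `T5.lean` may be used.

`ext_one`: let `ℓ = p.σ.length = ⟨i, x⟩` (`Nat.unpair`).
* If `i = 0`: append `(Z x).toNat`, keep the block.
* If `i = j + 1` with `j < p.m`: take `e₀ ∈ p.B.K` and let `w` be the witness of `p.B.wit j _ (fun c => !e₀ ⟨c, x⟩)`.  Append `w`; the
  new class is `{e ∈ p.B.K | Cons e L₀}` with `L₀` = list of all `(⟨c, x⟩, e₀ ⟨c, x⟩)`, `(c, j) ∈ p.B.Λ` (`pi_cons`); it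
  contains `e₀`.  `Le`: if `τ` is permitted by the new condition with the point `e`, then at the position `ℓ` we
  have `τ.getD ℓ 0 = w`, `e ⟨c, w⟩ = !e₀ ⟨c, x⟩ ≠ e ⟨c, x⟩`.
* If `i = j + 1` with `j ≥ p.m`: append `0`, keep the block (no label has index `j`).

`take`: the condition with the string `τ` (permitted by `p` with a point of `K`) and the class of the points of `p.B.K` for
which `τ` is good: `L₀` = list of the finitely many values of the given point `e₀` which are relevant, or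
better: show that `{e ∈ p.B.K | Gd p.B.Λ p.σ.length e τ}` contains the class `{e ∈ p.B.K | Cons e L₀}` where
`L₀` is the list of all `(k, e₀ k)`, `k < M`, with `M` larger than all relevant positions.  Use this class.
-/

namespace Pool.Agent.H268.DG

open Nat.Partrec (Code)
open Nat.Partrec.Code Encodable Denumerable
open Helper423Ceer (orc pre Computes ComputesDiagonal InDiag NontrivialCeer MLRandom MLTest)

variable {Z : ℕ → Bool} {E : ℕ → ℕ → ℕ → Prop}

/-- restriction of a block to the points which agree with a list -/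
private def rblk {m : ℕ} (B : Blk Z E m) (L₀ : List (ℕ × Bool))
    (hne : {e | e ∈ B.K ∧ Cons e L₀}.Nonempty) : Blk Z E m where
  Λ := B.Λ
  K := {e | e ∈ B.K ∧ Cons e L₀}
  lab := B.lab
  pi := pi_cons B.pi L₀
  ne := hne
  inv := fun e he => B.inv e he.1
  wit := fun j hj s => by
    obtain ⟨w, hw⟩ := B.wit j hj s
    exact ⟨w, fun e he => hw e he.1⟩

private theorem getD_of_prefix {τ τ' : List ℕ} (h : τ <+: τ') {k : ℕ} (hk : k < τ.length) :
    τ'.getD k 0 = τ.getD k 0 := by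
  obtain ⟨t, rfl⟩ := h
  rw [List.getD_append _ _ _ _ hk]

private theorem zcol_append {σ : List ℕ} (h : ZCol Z σ) (v : ℕ)
    (hv : ∀ x, Nat.pair 0 x = σ.length → v = (Z x).toNat) : ZCol Z (σ ++ [v]) := by
  intro x hx
  rw [List.length_append, List.length_singleton] at hx
  rcases Nat.lt_succ_iff_lt_or_eq.1 hx with h1 | h1
  · rw [getD_of_prefix (List.prefix_append σ [v]) h1]
    exact h x h1
  · rw [h1, List.getD_append_right _ _ _ _ (le_refl _)]
    simp only [Nat.sub_self, List.getD_cons_zero]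
    exact hv x h1

/-- the general step -/
private theorem step (p : Cond Z E) (v : ℕ) (L₀ : List (ℕ × Bool))
    (hne : {e | e ∈ p.B.K ∧ Cons e L₀}.Nonempty) (hz : ZCol Z (p.σ ++ [v]))
    (hs : ∀ e, e ∈ p.B.K → Cons e L₀ → ∀ q ∈ p.B.Λ, ∀ x, Nat.pair (q.2 + 1) x = p.σ.length →
      e (Nat.pair q.1 v) ≠ e (Nat.pair q.1 x)) :
    ∃ q : Cond Z E, Le q p ∧ q.m = p.m ∧ q.σ.length = p.σ.length + 1 := by
  refine ⟨⟨p.σ ++ [v], p.m, rblk p.B L₀ hne, hz, p.act⟩, ?_, rfl, by simp⟩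
  rintro τ ⟨h1, h2, e, he, hg⟩
  refine ⟨(List.prefix_append p.σ [v]).trans h1, h2, e, he.1, ?_⟩
  intro q hq x hx1 hx2
  rcases Nat.lt_or_ge p.σ.length (Nat.pair (q.2 + 1) x) with h3 | h3
  · exact hg q hq x (by
      simp only [List.length_append, List.length_singleton]
      exact h3) hx2
  · have h4 : Nat.pair (q.2 + 1) x = p.σ.length := le_antisymm h3 hx1
    have h5 : τ.getD (Nat.pair (q.2 + 1) x) 0 = v := by
      rw [getD_of_prefix h1 (by
        simp only [List.length_append, List.length_singleton]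
        omega), h4, List.getD_append_right _ _ _ _ (le_refl _)]
      simp
    rw [h5]
    exact hs e he.1 he.2 q hq x h4

theorem ext_one (p : Cond Z E) :
    ∃ q : Cond Z E, Le q p ∧ q.m = p.m ∧ q.σ.length = p.σ.length + 1 := by
  classical
  obtain ⟨e₀, he₀⟩ := p.B.ne
  obtain ⟨i, x, hix⟩ : ∃ i x, Nat.pair i x = p.σ.length :=
    ⟨_, _, Nat.pair_unpair p.σ.length⟩
  have hnil : {e | e ∈ p.B.K ∧ Cons e []}.Nonempty := ⟨e₀, he₀, fun q hq => by simp at hq⟩
  rcases i with _ | j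
  · refine step p (Z x).toNat [] hnil (zcol_append p.zc _ fun y hy => ?_) ?_
    · rw [← hix] at hy
      rw [(Nat.pair_eq_pair.1 hy).2]
    · intro e _ _ q _ y hy
      rw [← hix] at hy
      have := (Nat.pair_eq_pair.1 hy).1
      omega
  · have hzc : ∀ v, ZCol Z (p.σ ++ [v]) := fun v => zcol_append p.zc _ fun y hy => by
      rw [← hix] at hy
      have := (Nat.pair_eq_pair.1 hy).1
      omega
    by_cases hj : j < p.m
    · obtain ⟨w, hw⟩ := p.B.wit j hj (fun c => !e₀ (Nat.pair c x))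
      refine step p w (p.B.Λ.map fun q => (Nat.pair q.1 x, e₀ (Nat.pair q.1 x)))
        ⟨e₀, he₀, ?_⟩ (hzc w) ?_
      · intro q hq
        obtain ⟨t, _, rfl⟩ := List.mem_map.1 hq
        rfl
      · intro e he hc q hq y hy
        rw [← hix] at hy
        obtain ⟨h1, rfl⟩ := Nat.pair_eq_pair.1 hy
        have h2 : q.2 = j := by omega
        have h3 := hw e he q hq h2
        have h4 : e (Nat.pair q.1 y) = e₀ (Nat.pair q.1 y) :=
          hc (Nat.pair q.1 y, e₀ (Nat.pair q.1 y)) (List.mem_map.2 ⟨q, hq, rfl⟩)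
        rw [h3, h4]
        simp
    · refine step p 0 [] hnil (hzc 0) ?_
      intro e _ _ q hq y hy
      rw [← hix] at hy
      have h1 := (Nat.pair_eq_pair.1 hy).1
      have h2 := p.B.lab q hq
      omega

theorem ext_many (p : Cond Z E) (k : ℕ) :
    ∃ q : Cond Z E, Le q p ∧ q.m = p.m ∧ k < q.σ.length := by
  induction k with
  | zero =>
    obtain ⟨q, h1, h2, h3⟩ := ext_one p
    exact ⟨q, h1, h2, by omega⟩
  | succ k ih =>
    obtain ⟨q, h1, h2, h3⟩ := ih
    obtain ⟨r, h4, h5, h6⟩ := ext_one q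
    exact ⟨r, fun τ hτ => h1 τ (h4 τ hτ), h5.trans h2, by omega⟩

theorem take (p : Cond Z E) {τ : List ℕ} (hτ : Ok p τ) :
    ∃ q : Cond Z E, Le q p ∧ q.m = p.m ∧ q.σ = τ := by
  classical
  obtain ⟨h1, h2, e₀, he₀, hg⟩ := hτ
  set L₀ : List (ℕ × Bool) := p.B.Λ.flatMap fun q => (List.range τ.length).flatMap fun y =>
    [(Nat.pair q.1 (τ.getD (Nat.pair (q.2 + 1) y) 0),
        e₀ (Nat.pair q.1 (τ.getD (Nat.pair (q.2 + 1) y) 0))),
      (Nat.pair q.1 y, e₀ (Nat.pair q.1 y))] with hL₀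
  have hc₀ : Cons e₀ L₀ := by
    intro q hq
    rw [hL₀] at hq
    obtain ⟨t, _, ht⟩ := List.mem_flatMap.1 hq
    obtain ⟨y, _, hy⟩ := List.mem_flatMap.1 ht
    rcases List.mem_cons.1 hy with rfl | hy
    · rfl
    · rw [List.mem_singleton] at hy
      rw [hy]
  refine ⟨⟨τ, p.m, rblk p.B L₀ ⟨e₀, he₀, hc₀⟩, h2, p.act⟩, ?_, rfl, rfl⟩
  rintro τ' ⟨h3, h4, e, he, hg'⟩
  refine ⟨h1.trans h3, h4, e, he.1, ?_⟩
  intro q hq x hx1 hx2
  rcases Nat.lt_or_ge (Nat.pair (q.2 + 1) x) τ.length with h5 | h5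
  · rw [getD_of_prefix h3 h5]
    have hx : x < τ.length := lt_of_le_of_lt (Nat.right_le_pair _ _) h5
    have h6 : e (Nat.pair q.1 (τ.getD (Nat.pair (q.2 + 1) x) 0)) =
        e₀ (Nat.pair q.1 (τ.getD (Nat.pair (q.2 + 1) x) 0)) := by
      exact he.2 (Nat.pair q.1 (τ.getD (Nat.pair (q.2 + 1) x) 0),
        e₀ (Nat.pair q.1 (τ.getD (Nat.pair (q.2 + 1) x) 0))) (List.mem_flatMap.2 ⟨q, hq,
          List.mem_flatMap.2 ⟨x, List.mem_range.2 hx, List.mem_cons_self⟩⟩)
    have h7 : e (Nat.pair q.1 x) = e₀ (Nat.pair q.1 x) := by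
      exact he.2 (Nat.pair q.1 x, e₀ (Nat.pair q.1 x)) (List.mem_flatMap.2 ⟨q, hq,
        List.mem_flatMap.2 ⟨x, List.mem_range.2 hx,
          List.mem_cons_of_mem _ (List.mem_singleton_self _)⟩⟩)
    rw [h6, h7]
    exact hg q hq x hx1 h5
  · exact hg' q hq x h5 hx2

end Pool.Agent.H268.DG
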