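import Mathlib
import Pool.Agent.H268.DG.T2

/-!
# T6: the classes of the points for which no good string gives the value `v` at `n`

`T1.lean`, `T2.lean` may be used.  Put
`GL L τ := ∀ q ∈ Λ, ∀ x < τ.length, a ≤ pair (q.2+1) x → pair (q.2+1) x < τ.length →
  ∃ b : Bool, (pair q.1 (τ.getD (pair (q.2+1) x) 0), b) ∈ L ∧ (pair q.1 x, !b) ∈ L`
(a primitive recursive predicate of `(L, τ)`, for the fixed list `Λ` and the fixed `a`; every position
`pair (q.2+1) x < τ.length` has `x < τ.length`, `Nat.right_le_pair`), and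
`W ((n, v), L) := W₀ L ∨ ∃ τ, σ <+: τ ∧ ZCol Z τ ∧ Red F τ n v ∧ GL L τ`, `W₀` the predicate of `PiC Z K`.

* If `W ((n, v), L)` and `Cons e L` then `e ∉ K` or `τ` is good for `e`.
* If `τ` is good for `e`, let `L` be the list of all `(k, e k)` for the finitely many relevant `k`
  (for instance all `k < M`, `M` large).

`sg_zcol`: `ZCol Z τ` is `Sg Z`: `V (τ, L) := ∀ x < τ.length, pair 0 x < τ.length →
  ∃ b, (x, b) ∈ L ∧ τ.getD (pair 0 x) 0 = b.toNat`.
`re_red`: `Red F τ n v` is c.e.: `pre (codl τ) s` is a primitive recursive function of `(τ, s)` (a sum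
over a range; write it by recursion or as `((List.range s).map ..).sum`), `F` partial recursive (`re_graph`).
-/

namespace Pool.Agent.H268.DG

open Nat.Partrec (Code)
open Nat.Partrec.Code Encodable Denumerable
open Helper423Ceer (orc pre Computes ComputesDiagonal InDiag NontrivialCeer MLRandom MLTest)

variable {Z : ℕ → Bool}

namespace T6

theorem all_mem {α β : Type} [Primcodable α] [Primcodable β] {R : β → α → Prop}
    (hR : PrimrecRel R) {f : α → List β} (hf : Primrec f) :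
    PrimrecPred fun a => ∀ b ∈ f a, R b a :=
  hR.forall_mem_list.comp hf Primrec.id

theorem ex_mem {α β : Type} [Primcodable α] [Primcodable β] {R : β → α → Prop}
    (hR : PrimrecRel R) {f : α → List β} (hf : Primrec f) :
    PrimrecPred fun a => ∃ b ∈ f a, R b a :=
  hR.exists_mem_list.comp hf Primrec.id

theorem ex_list {α β γ : Type} [Primcodable α] [Primcodable β] [Primcodable γ]
    {R : β → γ → Prop} (hR : PrimrecRel R) {f : α → List β} (hf : Primrec f) {g : α → γ}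
    (hg : Primrec g) : PrimrecPred fun a => ∃ b ∈ f a, R b (g a) :=
  hR.exists_mem_list.comp hf hg

theorem prim_toNat : Primrec Bool.toNat := Primrec.dom_bool _

/-- the predicate for the column `0` -/
def VZ (y : List ℕ × List (ℕ × Bool)) : Prop :=
  ∀ x ∈ List.range y.1.length, y.1.length ≤ Nat.pair 0 x ∨
    ∃ q ∈ y.2, q.1 = x ∧ y.1.getD (Nat.pair 0 x) 0 = q.2.toNat

theorem prim_VZ : PrimrecPred VZ := by
  have h2 : PrimrecRel fun (q : ℕ × Bool) (z : ℕ × (List ℕ × List (ℕ × Bool))) =>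
      q.1 = z.1 ∧ z.2.1.getD (Nat.pair 0 z.1) 0 = q.2.toNat := by
    refine PrimrecPred.and ?_ ?_
    · exact Primrec.eq.comp (Primrec.fst.comp Primrec.fst) (Primrec.fst.comp Primrec.snd)
    · refine Primrec.eq.comp ?_ (prim_toNat.comp (Primrec.snd.comp Primrec.fst))
      exact (Primrec.list_getD 0).comp (Primrec.fst.comp (Primrec.snd.comp Primrec.snd))
        (Primrec₂.natPair.comp (Primrec.const 0) (Primrec.fst.comp Primrec.snd))
  have h1 : PrimrecRel fun (x : ℕ) (y : List ℕ × List (ℕ × Bool)) =>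
      y.1.length ≤ Nat.pair 0 x ∨
        ∃ q ∈ y.2, q.1 = x ∧ y.1.getD (Nat.pair 0 x) 0 = q.2.toNat := by
    refine PrimrecPred.or ?_ ?_
    · exact Primrec.nat_le.comp (Primrec.list_length.comp (Primrec.fst.comp Primrec.snd))
        (Primrec₂.natPair.comp (Primrec.const 0) Primrec.fst)
    · exact ex_list h2 (Primrec.snd.comp Primrec.snd) Primrec.id
  exact all_mem h1 (Primrec.list_range.comp (Primrec.list_length.comp Primrec.fst))

theorem prim_codl : Primrec₂ codl := by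
  have h : PrimrecPred fun x : List ℕ × ℕ => x.1[x.2.unpair.1]? = some x.2.unpair.2 := by
    refine Primrec.eq.comp ?_ ?_
    · exact Primrec.list_getElem?.comp Primrec.fst
        (Primrec.fst.comp (Primrec.unpair.comp Primrec.snd))
    · exact Primrec.option_some.comp (Primrec.snd.comp (Primrec.unpair.comp Primrec.snd))
  exact h.decide

theorem prim_pre : Primrec₂ fun (τ : List ℕ) (s : ℕ) => pre (codl τ) s := by
  have h : Primrec₂ fun (τ : List ℕ) (y : ℕ × ℕ) =>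
      y.2 + (if codl τ y.1 = true then 2 ^ y.1 else 0) := by
    have hc : PrimrecPred fun x : List ℕ × (ℕ × ℕ) => codl x.1 x.2.1 = true :=
      Primrec.eq.comp (prim_codl.comp Primrec.fst (Primrec.fst.comp Primrec.snd))
        (Primrec.const true)
    refine Primrec.nat_add.comp (Primrec.snd.comp Primrec.snd) ?_
    exact Primrec.ite hc (Helper423Ceer.prim_pow2.comp (Primrec.fst.comp Primrec.snd))
      (Primrec.const 0)
  have h2 := Primrec.nat_rec (f := fun _ : List ℕ => (0 : ℕ)) (Primrec.const 0) h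
  refine Primrec₂.of_eq h2 fun τ s => ?_
  induction s with
  | zero => simp [pre]
  | succ s ih =>
    rw [Helper423Ceer.pre_succ, ← ih]

/-- the predicate for the good strings -/
def Gls (Λ : List (ℕ × ℕ)) (a : ℕ) (y : List (ℕ × Bool) × List ℕ) : Prop :=
  ∀ q ∈ Λ, ∀ x ∈ List.range y.2.length,
    (Nat.pair (q.2 + 1) x < a ∨ y.2.length ≤ Nat.pair (q.2 + 1) x) ∨
      ∃ r ∈ y.1, r.1 = Nat.pair q.1 (y.2.getD (Nat.pair (q.2 + 1) x) 0) ∧
        ∃ r' ∈ y.1, r' = (Nat.pair q.1 x, !r.2)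

theorem prim_Gls (Λ : List (ℕ × ℕ)) (a : ℕ) : PrimrecPred (Gls Λ a) := by
  -- the variables: `q`, `x`, `y`, `r`, `r'`
  have h3 : PrimrecRel fun (r' : ℕ × Bool)
      (z : (ℕ × Bool) × (ℕ × ((ℕ × ℕ) × (List (ℕ × Bool) × List ℕ)))) =>
      r' = (Nat.pair z.2.2.1.1 z.2.1, !z.1.2) := by
    refine Primrec.eq.comp Primrec.fst ?_
    refine Primrec.pair ?_ ?_
    · exact Primrec₂.natPair.comp
        (Primrec.fst.comp (Primrec.fst.comp (Primrec.snd.comp (Primrec.snd.comp Primrec.snd))))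
        (Primrec.fst.comp (Primrec.snd.comp Primrec.snd))
    · exact Primrec.not.comp (Primrec.snd.comp (Primrec.fst.comp Primrec.snd))
  have h2 : PrimrecRel fun (r : ℕ × Bool)
      (z : ℕ × ((ℕ × ℕ) × (List (ℕ × Bool) × List ℕ))) =>
      r.1 = Nat.pair z.2.1.1 (z.2.2.2.getD (Nat.pair (z.2.1.2 + 1) z.1) 0) ∧
        ∃ r' ∈ z.2.2.1, r' = (Nat.pair z.2.1.1 z.1, !r.2) := by
    refine PrimrecPred.and ?_ ?_
    · refine Primrec.eq.comp (Primrec.fst.comp Primrec.fst) ?_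
      refine Primrec₂.natPair.comp
        (Primrec.fst.comp (Primrec.fst.comp (Primrec.snd.comp Primrec.snd))) ?_
      refine (Primrec.list_getD 0).comp
        (Primrec.snd.comp (Primrec.snd.comp (Primrec.snd.comp Primrec.snd))) ?_
      exact Primrec₂.natPair.comp
        (Primrec.succ.comp (Primrec.snd.comp (Primrec.fst.comp (Primrec.snd.comp Primrec.snd))))
        (Primrec.fst.comp Primrec.snd)
    · exact ex_list h3 (Primrec.fst.comp (Primrec.snd.comp (Primrec.snd.comp Primrec.snd)))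
        (Primrec.pair Primrec.fst Primrec.snd)
  have h1 : PrimrecRel fun (x : ℕ) (z : (ℕ × ℕ) × (List (ℕ × Bool) × List ℕ)) =>
      (Nat.pair (z.1.2 + 1) x < a ∨ z.2.2.length ≤ Nat.pair (z.1.2 + 1) x) ∨
      ∃ r ∈ z.2.1, r.1 = Nat.pair z.1.1 (z.2.2.getD (Nat.pair (z.1.2 + 1) x) 0) ∧
        ∃ r' ∈ z.2.1, r' = (Nat.pair z.1.1 x, !r.2) := by
    have hp : Primrec fun w : ℕ × ((ℕ × ℕ) × (List (ℕ × Bool) × List ℕ)) =>
        Nat.pair (w.2.1.2 + 1) w.1 :=
      Primrec₂.natPair.comp (Primrec.succ.comp (Primrec.snd.comp (Primrec.fst.comp Primrec.snd)))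
        Primrec.fst
    refine PrimrecPred.or (PrimrecPred.or ?_ ?_) ?_
    · exact Primrec.nat_lt.comp hp (Primrec.const a)
    · exact Primrec.nat_le.comp
        (Primrec.list_length.comp (Primrec.snd.comp (Primrec.snd.comp Primrec.snd))) hp
    · exact ex_list h2 (Primrec.fst.comp (Primrec.snd.comp Primrec.snd)) Primrec.id
  have h0 : PrimrecRel fun (q : ℕ × ℕ) (y : List (ℕ × Bool) × List ℕ) =>
      ∀ x ∈ List.range y.2.length,
        (Nat.pair (q.2 + 1) x < a ∨ y.2.length ≤ Nat.pair (q.2 + 1) x) ∨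
        ∃ r ∈ y.1, r.1 = Nat.pair q.1 (y.2.getD (Nat.pair (q.2 + 1) x) 0) ∧
          ∃ r' ∈ y.1, r' = (Nat.pair q.1 x, !r.2) :=
    all_mem h1 (Primrec.list_range.comp (Primrec.list_length.comp
      (Primrec.snd.comp Primrec.snd)))
  exact all_mem h0 (Primrec.const Λ)

/-- the requirements which say that `τ` is good for `e` -/
def req (Λ : List (ℕ × ℕ)) (e : ℕ → Bool) (τ : List ℕ) : List (ℕ × Bool) :=
  Λ.flatMap fun q => (List.range τ.length).flatMap fun x =>
    [(Nat.pair q.1 (τ.getD (Nat.pair (q.2 + 1) x) 0),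
        e (Nat.pair q.1 (τ.getD (Nat.pair (q.2 + 1) x) 0))),
      (Nat.pair q.1 x, e (Nat.pair q.1 x))]

theorem cons_req (Λ : List (ℕ × ℕ)) (e : ℕ → Bool) (τ : List ℕ) : Cons e (req Λ e τ) := by
  intro r hr
  unfold req at hr
  simp only [List.mem_flatMap] at hr
  obtain ⟨q, -, x, -, h⟩ := hr
  rcases List.mem_pair.1 h with h | h
  · rw [h]
  · rw [h]

theorem gls_req {Λ : List (ℕ × ℕ)} {a : ℕ} {e : ℕ → Bool} {τ : List ℕ} (h : Gd Λ a e τ) :
    Gls Λ a (req Λ e τ, τ) := by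
  intro q hq x hx
  simp only
  by_cases h1 : Nat.pair (q.2 + 1) x < a ∨ τ.length ≤ Nat.pair (q.2 + 1) x
  · exact Or.inl h1
  · rw [not_or, not_lt, not_le] at h1
    right
    have h2 := h q hq x h1.1 h1.2
    have hm : ∀ r ∈ [(Nat.pair q.1 (τ.getD (Nat.pair (q.2 + 1) x) 0),
        e (Nat.pair q.1 (τ.getD (Nat.pair (q.2 + 1) x) 0))),
      (Nat.pair q.1 x, e (Nat.pair q.1 x))], r ∈ req Λ e τ := by
      intro r hr
      unfold req
      simp only [List.mem_flatMap]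
      exact ⟨q, hq, x, hx, hr⟩
    refine ⟨_, hm _ (List.mem_cons_self), rfl, _, hm _ (List.mem_cons_of_mem _
      List.mem_cons_self), ?_⟩
    simp only
    have h3 : e (Nat.pair q.1 x) = !e (Nat.pair q.1 (τ.getD (Nat.pair (q.2 + 1) x) 0)) := by
      revert h2
      cases e (Nat.pair q.1 x) <;>
        cases e (Nat.pair q.1 (τ.getD (Nat.pair (q.2 + 1) x) 0)) <;> simp
    rw [h3]

theorem gd_of_gls {Λ : List (ℕ × ℕ)} {a : ℕ} {e : ℕ → Bool} {τ : List ℕ} {L : List (ℕ × Bool)}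
    (h : Gls Λ a (L, τ)) (hL : Cons e L) : Gd Λ a e τ := by
  intro q hq x h1 h2
  have hx : x ∈ List.range τ.length :=
    List.mem_range.2 (lt_of_le_of_lt (Nat.right_le_pair _ _) h2)
  rcases h q hq x hx with (h3 | h3) | ⟨r, hr, hr1, r', hr', hr2⟩
  · exact absurd h3 (not_lt.2 h1)
  · exact absurd h3 (not_le.2 h2)
  · have h4 := hL r hr
    have h5 := hL r' hr'
    rw [hr1] at h4
    rw [hr2] at h5
    simp only at h4 h5
    rw [h4, h5]
    cases r.2 <;> simp

end T6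

open T6

theorem sg_zcol : Sg Z (fun τ : List ℕ => ZCol Z τ) := by
  refine ⟨VZ, re_prim prim_VZ, fun τ => ⟨fun h => ?_, ?_⟩⟩
  · refine ⟨(List.range τ.length).map fun x => (x, Z x), ?_, ?_⟩
    · intro x hx
      simp only at hx ⊢
      by_cases h1 : τ.length ≤ Nat.pair 0 x
      · exact Or.inl h1
      · refine Or.inr ⟨(x, Z x), List.mem_map.2 ⟨x, hx, rfl⟩, rfl, ?_⟩
        exact h x (not_le.1 h1)
    · intro q hq
      obtain ⟨x, -, rfl⟩ := List.mem_map.1 hq
      rfl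
  · rintro ⟨L, h1, h2⟩ x hx
    have hx' : x ∈ List.range τ.length :=
      List.mem_range.2 (lt_of_le_of_lt (Nat.right_le_pair _ _) hx)
    rcases h1 x hx' with h3 | ⟨q, hq, h4, h5⟩
    · exact absurd h3 (not_le.2 hx)
    · have h6 := h2 q hq
      rw [h4] at h6
      rw [h6]
      exact h5

theorem re_red {F : ℕ →. ℕ} (hF : Nat.Partrec F) :
    REPred (fun x : List ℕ × ℕ × ℕ => Red F x.1 x.2.1 x.2.2) := by
  have h1 : REPred fun y : (List ℕ × ℕ × ℕ) × ℕ => y.2 ≤ y.1.1.length :=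
    re_prim (Primrec.nat_le.comp Primrec.snd
      (Primrec.list_length.comp (Primrec.fst.comp Primrec.fst)))
  have h2 : REPred fun z : ℕ × ℕ => z.2 ∈ F z.1 := re_graph (Partrec.nat_iff.2 hF)
  have h3 : Primrec fun y : (List ℕ × ℕ × ℕ) × ℕ =>
      (Nat.pair y.2 (Nat.pair (pre (codl y.1.1) y.2) y.1.2.1), y.1.2.2) := by
    refine Primrec.pair ?_ (Primrec.snd.comp (Primrec.snd.comp Primrec.fst))
    refine Primrec₂.natPair.comp Primrec.snd ?_
    refine Primrec₂.natPair.comp ?_ (Primrec.fst.comp (Primrec.snd.comp Primrec.fst))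
    exact prim_pre.comp (Primrec.fst.comp Primrec.fst) Primrec.snd
  have h4 := re_comp (V := fun z : ℕ × ℕ => z.2 ∈ F z.1) h2 h3.to_comp
  dsimp only at h4
  have h5 := re_and h1 h4
  exact re_ex (V := fun y : (List ℕ × ℕ × ℕ) × ℕ => y.2 ≤ y.1.1.length ∧
    y.1.2.2 ∈ F (Nat.pair y.2 (Nat.pair (pre (codl y.1.1) y.2) y.1.2.1))) h5

theorem pif_avoid {K : Set (ℕ → Bool)} (hK : PiC Z K) {F : ℕ →. ℕ} (hF : Nat.Partrec F)
    (Λ : List (ℕ × ℕ)) (a : ℕ) (σ : List ℕ) :
    PiF Z (fun x : ℕ × ℕ =>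
      {e | e ∈ K ∧ ∀ τ, σ <+: τ → ZCol Z τ → Gd Λ a e τ → ¬ Red F τ x.1 x.2}) := by
  obtain ⟨W₀, hW₀, hK'⟩ := hK
  refine ⟨fun y : (ℕ × ℕ) × List (ℕ × Bool) => W₀ y.2 ∨
    ∃ τ : List ℕ, ((∃ t : List ℕ, σ ++ t = τ) ∧ ZCol Z τ) ∧
      (Red F τ y.1.1 y.1.2 ∧ Gls Λ a (y.2, τ)), ?_, ?_⟩
  · have h0 : Sg Z fun y : (ℕ × ℕ) × List (ℕ × Bool) => W₀ y.2 := sg_comp hW₀ Computable.snd
    have h1 : Sg Z fun z : ((ℕ × ℕ) × List (ℕ × Bool)) × List ℕ => ∃ t : List ℕ, σ ++ t = z.2 := by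
      refine sg_ex (p := fun w : (((ℕ × ℕ) × List (ℕ × Bool)) × List ℕ) × List ℕ =>
        σ ++ w.2 = w.1.2) (sg_re (re_prim ?_))
      exact Primrec.eq.comp (Primrec.list_append.comp (Primrec.const σ) Primrec.snd)
        (Primrec.snd.comp Primrec.fst)
    have h2 : Sg Z fun z : ((ℕ × ℕ) × List (ℕ × Bool)) × List ℕ => ZCol Z z.2 :=
      sg_comp sg_zcol Computable.snd
    have h3 : Sg Z fun z : ((ℕ × ℕ) × List (ℕ × Bool)) × List ℕ =>
        Red F z.2 z.1.1.1 z.1.1.2 := by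
      refine sg_re ?_
      have h4 : Primrec fun z : ((ℕ × ℕ) × List (ℕ × Bool)) × List ℕ =>
          (z.2, z.1.1.1, z.1.1.2) :=
        Primrec.pair Primrec.snd (Primrec.pair (Primrec.fst.comp (Primrec.fst.comp Primrec.fst))
          (Primrec.snd.comp (Primrec.fst.comp Primrec.fst)))
      have h6 := re_comp (V := fun x : List ℕ × ℕ × ℕ => Red F x.1 x.2.1 x.2.2) (re_red hF)
        h4.to_comp
      dsimp only at h6
      exact h6
    have h5 : Sg Z fun z : ((ℕ × ℕ) × List (ℕ × Bool)) × List ℕ => Gls Λ a (z.1.2, z.2) := by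
      refine sg_re ?_
      have h4 : Primrec fun z : ((ℕ × ℕ) × List (ℕ × Bool)) × List ℕ => (z.1.2, z.2) :=
        Primrec.pair (Primrec.snd.comp Primrec.fst) Primrec.snd
      have h6 := re_comp (V := Gls Λ a) (re_prim (prim_Gls Λ a)) h4.to_comp
      exact h6
    have h6 := sg_and (sg_and h1 h2) (sg_and h3 h5)
    have h7 := sg_ex (p := fun z : ((ℕ × ℕ) × List (ℕ × Bool)) × List ℕ =>
      ((∃ t : List ℕ, σ ++ t = z.2) ∧ ZCol Z z.2) ∧
        (Red F z.2 z.1.1.1 z.1.1.2 ∧ Gls Λ a (z.1.2, z.2))) h6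
    dsimp only at h7
    exact sg_or h0 h7
  · rintro ⟨n, v⟩ e
    simp only [Set.mem_ofPred_eq]
    constructor
    · intro h
      by_cases he : e ∈ K
      · have h1 : ∃ τ, σ <+: τ ∧ ZCol Z τ ∧ Gd Λ a e τ ∧ Red F τ n v := by
          by_contra hcon
          exact h ⟨he, fun τ h1 h2 h3 h4 => hcon ⟨τ, h1, h2, h3, h4⟩⟩
        obtain ⟨τ, h1, h2, h3, h4⟩ := h1
        exact ⟨req Λ e τ, Or.inr ⟨τ, ⟨h1, h2⟩, h4, gls_req h3⟩, cons_req Λ e τ⟩
      · obtain ⟨L, h1, h2⟩ := (hK' e).1 he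
        exact ⟨L, Or.inl h1, h2⟩
    · rintro ⟨L, h1 | ⟨τ, ⟨h1, h2⟩, h3, h4⟩, hL⟩ ⟨he, h5⟩
      · exact (hK' e).2 ⟨L, h1, hL⟩ he
      · exact h5 τ h1 h2 (gd_of_gls h4 hL) h3

end Pool.Agent.H268.DG
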