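import Mathlib
import Pool.Agent.H268.DG.T2

/-!
# T3: choice functions computable in `Z`, and predicates c.e. in `Z` from oracle machines

`T1.lean`, `T2.lean` may be used.  In the library file
`Pool/Graph/R_pool_sql_team_seeded_620a6dc7/Helper423_Ceer/Bridge.lean` (namespace `Helper423Ceer`):
`pre X s` is the code `∑_{i < s} X_i 2^i` of the first `s` bits of `X`,
`Computes X g := ∃ f, Nat.Partrec f ∧ ∀ x y, g x = y ↔ ∃ s, y ∈ f (pair s (pair (pre X s) x))`,
`computes_iff : TuringReducible (fun n => Part.some (g n)) (orc X) ↔ Computes X g`, `tr_pre`, the calculus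
`TR`, `apx_of_recursiveIn : Nat.RecursiveIn {orc X} h → Apx X h`, `pre_bit`, `pre_mod`, `prim_pow2`.

`sg_choose`: let `V` be the c.e. predicate of `Sg Z p`, with normal form
`V ((n, v), L) ↔ ∃ k, R ((n, v), L) k`, `R` primitive recursive (`re_iff`).  For every `n` search for the
first number `c` which codes a tuple `(v, L, k, s)` (say via `decode`) with `R ((n, v), L) k`, all positions in `L`
smaller than `s` and `L` in agreement with `pre Z s` (the bit at position `i < s` is `pre Z s / 2 ^ i % 2`);
the test is a primitive recursive predicate of `n`, `c` and `pre Z s`.  Output `v` for the first `c`.  This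
is a function recursive in `Z` (Nat.RecursiveIn with rfind and `tr_pre`, as in the proof of
`recursiveIn_of_computes`); turn it into `Computes Z f` with `computes_iff`.  A more direct way to `Computes Z f`:
the output at stage `s` is the `v` of the first `c ≤ s` passing the test, provided that the test for all
`c' ≤ c` can be decided with `pre Z s` (all positions in the lists coded by `c' ≤ c` are `< s`);
these outputs do not depend on `s` once they are defined.

`sg_of_recursiveIn`: with `apx_of_recursiveIn` (after `RecursiveIn.iff_nat`) get `F` partial recursive with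
`y ∈ f x ↔ ∃ s, y ∈ F (s, pre Z s) x`.  Take
`V (x, L) := ∃ s r, (r is the code of bits b_0 … b_{s-1} with (i, b_i) ∈ L for all i < s) ∧ (F (s, r) x).Dom`.
-/

namespace Pool.Agent.H268.DG

open Nat.Partrec (Code)
open Nat.Partrec.Code Encodable Denumerable
open Helper423Ceer (orc pre Computes ComputesDiagonal InDiag NontrivialCeer MLRandom MLTest)

variable {Z : ℕ → Bool}

namespace T3

open Primrec (fst snd)

/-- the tuples (value, list, witness) -/
abbrev TP : Type := ℕ × List (ℕ × Bool) × ℕ

/-- the list agrees with the bits of `r` -/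
def Agr (r : ℕ) (L : List (ℕ × Bool)) : Prop := ∀ q ∈ L, r / 2 ^ q.1 % 2 = q.2.toNat

theorem prim_toNat : Primrec (fun b : Bool => b.toNat) := Primrec.dom_finite _

theorem prim_agr : PrimrecRel (fun (L : List (ℕ × Bool)) (r : ℕ) => Agr r L) := by
  have h : PrimrecRel (fun (q : ℕ × Bool) (r : ℕ) => r / 2 ^ q.1 % 2 = q.2.toNat) := by
    refine Primrec.eq.comp (Primrec.nat_mod.comp (Primrec.nat_div.comp snd
      (Helper423Ceer.prim_pow2.comp (fst.comp fst))) (Primrec.const 2))
      (prim_toNat.comp (snd.comp fst))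
  exact PrimrecRel.forall_mem_list h

theorem agr_iff {L : List (ℕ × Bool)} {s : ℕ} (hL : ∀ q ∈ L, q.1 < s) :
    Agr (pre Z s) L ↔ Cons Z L := by
  unfold Agr Cons
  refine forall₂_congr fun q hq => ?_
  rw [Helper423Ceer.pre_bit Z (hL q hq)]
  cases Z q.1 <;> cases q.2 <;> simp

theorem le_encode {L : List (ℕ × Bool)} {q : ℕ × Bool} (hq : q ∈ L) : q.1 ≤ encode L := by
  induction L with
  | nil => simp at hq
  | cons a l ih =>
    rw [encode_list_cons]
    rcases List.mem_cons.1 hq with rfl | h
    · have h1 : q.1 ≤ encode q := by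
        obtain ⟨a, b⟩ := q
        rw [encode_prod_val]
        exact Nat.left_le_pair _ _
      exact h1.trans ((Nat.left_le_pair _ _).trans (Nat.le_succ _))
    · exact (ih h).trans ((Nat.right_le_pair _ _).trans (Nat.le_succ _))

theorem le_encode_tp (t : TP) {q : ℕ × Bool} (hq : q ∈ t.2.1) : q.1 ≤ encode t := by
  obtain ⟨v, L, k⟩ := t
  refine (le_encode hq).trans ?_
  rw [encode_prod_val, encode_prod_val]
  exact (Nat.left_le_pair _ _).trans (Nat.right_le_pair _ _)

variable (R : (ℕ × ℕ) × List (ℕ × Bool) → ℕ → Prop)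

/-- the test, for a predicate `A` of the list -/
def Ts (A : List (ℕ × Bool) → Prop) (n c : ℕ) (t : TP) : Prop :=
  encode t = c ∧ R ((n, t.1), t.2.1) t.2.2 ∧ A t.2.1

open Classical in
/-- the value found at `c` -/
noncomputable def Wv (A : List (ℕ × Bool) → Prop) (n c : ℕ) : Option ℕ :=
  (decode c : Option TP).bind fun t => if Ts R A n c t then some t.1 else none

variable {R}

theorem mem_Wv {A : List (ℕ × Bool) → Prop} {n c v : ℕ} :
    Wv R A n c = some v ↔ ∃ t : TP, Ts R A n c t ∧ t.1 = v := by
  classical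
  unfold Wv
  rw [Option.bind_eq_some_iff]
  constructor
  · rintro ⟨t, -, h⟩
    split_ifs at h with h1
    exact ⟨t, h1, Option.some.inj h⟩
  · rintro ⟨t, h1, h2⟩
    refine ⟨t, ?_, ?_⟩
    · rw [← h1.1]
      exact encodek t
    · rw [if_pos h1, h2]

theorem Wv_congr {A B : List (ℕ × Bool) → Prop} {n c : ℕ}
    (h : ∀ L : List (ℕ × Bool), (∀ q ∈ L, q.1 ≤ c) → (A L ↔ B L)) : Wv R A n c = Wv R B n c := by
  have key : ∀ t : TP, Ts R A n c t ↔ Ts R B n c t := by
    intro t
    unfold Ts
    refine and_congr_right fun h1 => and_congr_right fun _ => h _ fun q hq => ?_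
    rw [← h1]
    exact le_encode_tp t hq
  refine Option.ext fun v => ?_
  rw [mem_Wv, mem_Wv]
  exact exists_congr fun t => and_congr_left fun _ => key t

theorem prim_Wv (hR : PrimrecRel R) :
    Primrec (fun p : (ℕ × ℕ) × ℕ => Wv R (Agr p.1.2) p.1.1 p.2) := by
  classical
  unfold Wv
  refine Primrec.option_bind (Primrec.decode.comp snd) ?_
  have hT : PrimrecPred (fun p : ((ℕ × ℕ) × ℕ) × TP => Ts R (Agr p.1.1.2) p.1.1.1 p.1.2 p.2) := by
    unfold Ts
    refine PrimrecPred.and (Primrec.eq.comp (Primrec.encode.comp snd) (snd.comp fst)) ?_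
    refine PrimrecPred.and ?_ ?_
    · exact hR.comp (Primrec.pair (Primrec.pair (fst.comp (fst.comp fst)) (fst.comp snd))
        (fst.comp (snd.comp snd))) (snd.comp (snd.comp snd))
    · exact prim_agr.comp (fst.comp (snd.comp snd)) (snd.comp (fst.comp fst))
  exact Primrec.ite hT (Primrec.option_some.comp (fst.comp snd)) (Primrec.const none)

theorem prim_Wv' (hR : PrimrecRel R) {α : Type} [Primcodable α] {r n c : α → ℕ}
    (hr : Primrec r) (hn : Primrec n) (hc : Primrec c) :
    Primrec (fun a => Wv R (Agr (r a)) (n a) (c a)) := by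
  have h1 : Primrec (fun a : α => (((n a, r a), c a) : (ℕ × ℕ) × ℕ)) :=
    Primrec.pair (Primrec.pair hn hr) hc
  have h2 := Primrec.comp (f := fun p : (ℕ × ℕ) × ℕ => Wv R (Agr p.1.2) p.1.1 p.2)
    (g := fun a : α => (((n a, r a), c a) : (ℕ × ℕ) × ℕ)) (prim_Wv hR) h1
  exact h2

end T3

open T3 in
theorem sg_choose {p : ℕ × ℕ → Prop} (h : Sg Z p) (hex : ∀ n, ∃ v, p (n, v)) :
    ∃ f : ℕ → ℕ, Computes Z f ∧ ∀ n, p (n, f n) := by
  classical
  obtain ⟨V, hV, hp⟩ := h
  obtain ⟨R, hR, hVR⟩ := re_iff.1 hV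
  have hW : ∀ n, ∃ c, (Wv R (Cons Z) n c).isSome = true := by
    intro n
    obtain ⟨v, hv⟩ := hex n
    obtain ⟨L, hL1, hL2⟩ := (hp _).1 hv
    obtain ⟨k, hk⟩ := (hVR _).1 hL1
    have h1 : Wv R (Cons Z) n (encode ((v, L, k) : TP)) = some v :=
      mem_Wv.2 ⟨(v, L, k), ⟨rfl, hk, hL2⟩, rfl⟩
    exact ⟨_, by rw [h1]; rfl⟩
  have hg : ∀ n, ∃ v, Wv R (Cons Z) n (Nat.find (hW n)) = some v := fun n =>
    Option.isSome_iff_exists.1 (Nat.find_spec (hW n))
  choose g hg using hg
  have hcong : ∀ n c s, c < s → Wv R (Agr (pre Z s)) n c = Wv R (Cons Z) n c := by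
    intro n c s hcs
    exact Wv_congr fun L hL => agr_iff fun q hq => (hL q hq).trans_lt hcs
  refine ⟨g, ⟨fun x => (Nat.rfind fun c => (Part.some
    (Wv R (Agr x.unpair.2.unpair.1) x.unpair.2.unpair.2 c).isSome)).bind fun c =>
      ((if c < x.unpair.1 then Wv R (Agr x.unpair.2.unpair.1) x.unpair.2.unpair.2 c else none :
        Option ℕ) : Part ℕ), ?_, ?_⟩, ?_⟩
  · refine Partrec.nat_iff.1 ?_
    have e1 : Primrec (fun q : ℕ => q.unpair.1) := Primrec.fst.comp Primrec.unpair
    have e2 : Primrec (fun q : ℕ => q.unpair.2.unpair.1) :=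
      Primrec.fst.comp (Primrec.unpair.comp (Primrec.snd.comp Primrec.unpair))
    have e3 : Primrec (fun q : ℕ => q.unpair.2.unpair.2) :=
      Primrec.snd.comp (Primrec.unpair.comp (Primrec.snd.comp Primrec.unpair))
    have hw : Primrec (fun q : ℕ × ℕ =>
        Wv R (Agr q.1.unpair.2.unpair.1) q.1.unpair.2.unpair.2 q.2) :=
      prim_Wv' hR (r := fun q : ℕ × ℕ => q.1.unpair.2.unpair.1)
        (n := fun q : ℕ × ℕ => q.1.unpair.2.unpair.2) (c := fun q : ℕ × ℕ => q.2)
        (e2.comp Primrec.fst) (e3.comp Primrec.fst) Primrec.snd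
    refine Partrec.bind (Partrec.rfind ?_) ?_
    · exact (Primrec.option_isSome.comp hw).to_comp.partrec
    · refine Computable.ofOption (Primrec.to_comp ?_)
      exact Primrec.ite (Primrec.nat_lt.comp Primrec.snd (e1.comp Primrec.fst)) hw
        (Primrec.const none)
  · intro n v
    simp only [Nat.unpair_pair]
    constructor
    · rintro rfl
      refine ⟨Nat.find (hW n) + 1, Part.mem_bind_iff.2 ⟨Nat.find (hW n), ?_, ?_⟩⟩
      · refine Nat.mem_rfind.2 ⟨?_, fun {m} hm => ?_⟩
        · rw [hcong n _ _ (Nat.lt_succ_self _), Part.mem_some_iff]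
          exact (Nat.find_spec (hW n)).symm
        · rw [hcong n _ _ (Nat.lt_succ_of_lt hm), Part.mem_some_iff]
          exact (Bool.eq_false_iff.2 (Nat.find_min (hW n) hm)).symm
      · rw [if_pos (Nat.lt_succ_self _), hcong n _ _ (Nat.lt_succ_self _), hg n]
        exact Part.mem_coe.2 rfl
    · rintro ⟨s, hs⟩
      obtain ⟨c, h1, h2⟩ := Part.mem_bind_iff.1 hs
      split_ifs at h2 with hcs
      · obtain ⟨h3, h4⟩ := Nat.mem_rfind.1 h1
        have h5 : Nat.find (hW n) = c := by
          rw [Nat.find_eq_iff]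
          constructor
          · rw [← hcong n c s hcs]
            exact (Part.mem_some_iff.1 h3).symm
          · intro m hm
            rw [← hcong n m s (hm.trans hcs)]
            exact Bool.eq_false_iff.1 (Part.mem_some_iff.1 (h4 hm)).symm
        have h6 := hg n
        rw [h5, ← hcong n c s hcs] at h6
        rw [h6] at h2
        exact (Part.mem_some_iff.1 h2).symm
      · exact absurd h2 (Part.notMem_none _)
  · intro n
    obtain ⟨t, ⟨-, h2, h3⟩, h4⟩ := mem_Wv.1 (hg n)
    rw [hp, ← h4]
    exact ⟨t.2.1, (hVR _).2 ⟨t.2.2, h2⟩, h3⟩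

namespace T3

/-- the number with the bits in the list -/
def code (L : List (ℕ × Bool)) : ℕ := L.foldl (fun a q => a + q.2.toNat * 2 ^ q.1) 0

theorem prim_code : Primrec code := by
  unfold code
  refine Primrec.list_foldl (f := fun L : List (ℕ × Bool) => L) (g := fun _ => 0)
    (h := fun (_ : List (ℕ × Bool)) (p : ℕ × (ℕ × Bool)) => p.1 + p.2.2.toNat * 2 ^ p.2.1)
    Primrec.id (Primrec.const 0) ?_
  exact Primrec.nat_add.comp (Primrec.fst.comp Primrec.snd)
    (Primrec.nat_mul.comp (prim_toNat.comp (Primrec.snd.comp (Primrec.snd.comp Primrec.snd)))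
      (Helper423Ceer.prim_pow2.comp (Primrec.fst.comp (Primrec.snd.comp Primrec.snd))))

theorem code_range (Z : ℕ → Bool) (s : ℕ) :
    code ((List.range s).map fun i => (i, Z i)) = pre Z s := by
  induction s with
  | zero => simp [code, pre]
  | succ s ih =>
    rw [List.range_succ, List.map_append, code, List.foldl_append, Helper423Ceer.pre_succ, ← ih]
    cases h : Z s <;> simp [code, h]

end T3

open T3 in
theorem sg_of_recursiveIn {f : ℕ →. ℕ} (hf : TuringReducible f (orc Z)) :
    Sg Z (fun x : ℕ => (f x).Dom) := by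
  obtain ⟨F, hF, sF, cF⟩ := Helper423Ceer.apx_of_recursiveIn (RecursiveIn.iff_nat.1 hf)
  refine ⟨fun q => q.2.map Prod.fst = List.range q.2.length ∧
    (F (q.2.length, code q.2) q.1).Dom, re_and (re_prim ?_) ?_, ?_⟩
  · exact Primrec.eq.comp (Primrec.list_map Primrec.snd (Primrec.fst.comp Primrec.snd))
      (Primrec.list_range.comp (Primrec.list_length.comp Primrec.snd))
  · refine Partrec.dom_re ?_
    exact hF.comp (Computable.pair (Primrec.list_length.comp Primrec.snd).to_comp
      (prim_code.comp Primrec.snd).to_comp) Computable.fst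
  · intro x
    constructor
    · intro hx
      obtain ⟨s, hs⟩ := (cF x _ (Part.get_mem hx)).exists
      refine ⟨(List.range s).map fun i => (i, Z i), ⟨?_, ?_⟩, ?_⟩
      · simp [List.map_map, Function.comp_def]
      · rw [code_range, List.length_map, List.length_range]
        exact Part.dom_iff_mem.2 ⟨_, hs⟩
      · intro q hq
        obtain ⟨i, -, rfl⟩ := List.mem_map.1 hq
        rfl
    · rintro ⟨L, ⟨h1, h2⟩, h3⟩
      have h4 : L = (List.range L.length).map fun i => (i, Z i) := by
        rw [← h1, List.map_map]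
        conv_lhs => rw [← List.map_id L]
        refine List.map_congr_left fun q hq => ?_
        exact Prod.ext rfl (h3 q hq).symm
      have h5 : code L = pre Z L.length := by
        conv_lhs => rw [h4]
        exact code_range Z _
      rw [h5] at h2
      obtain ⟨y, hy⟩ := Part.dom_iff_mem.1 h2
      exact Part.dom_iff_mem.2 ⟨y, sF _ _ _ hy⟩

end Pool.Agent.H268.DG
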