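import Mathlib
import Pool.Agent.H268.DG.T2

/-!
# T4: emptiness of a `Π⁰₁` class is a c.e. event (compactness)

`T1.lean`, `T2.lean` may be used.

`Taut LL := ∀ e : ℕ → Bool, ∃ L ∈ LL, Cons e L` for `LL : List (List (ℕ × Bool))`.

`taut_re`: let `M` be larger than all positions occurring in `LL` (for example
`M = (LL.flatten.map Prod.fst).sum + 1`, primitive recursive); then
`Taut LL ↔ ∀ u < 2 ^ M, ∃ L ∈ LL, ∀ q ∈ L, ((u / 2 ^ q.1) % 2 = q.2.toNat)` which is a `PrimrecPred`
(`PrimrecRel.forall_mem_list`, `PrimrecRel.exists_mem_list`; `Helper423Ceer.prim_pow2` for `2 ^ _`).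

`cover`: by compactness of `ℕ → Bool` (`isCompact_univ.elim_finite_subcover` or
`CompactSpace.elim_nhds_subcover`): the sets `{e | Cons e L}` are open (finite intersections of
coordinate conditions).

`empty_sg`: let `W` be the predicate of `PiF`.  Then
`K a = ∅ ↔ ∀ e, ∃ L, W (a, L) ∧ Cons e L ↔ ∃ LL, (∀ L ∈ LL, W (a, L)) ∧ Taut LL`, and this is `Sg Z` by
`sg_ex`, `sg_and`, `sg_all_list`, `sg_re`.
-/

namespace Pool.Agent.H268.DG

open Nat.Partrec (Code)
open Nat.Partrec.Code Encodable Denumerable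

variable {Z : ℕ → Bool}

private theorem enc_mem {α : Type} [Encodable α] {a : α} : ∀ {l : List α}, a ∈ l →
    encode a < encode l := by
  intro l
  induction l with
  | nil => intro h; exact absurd h List.not_mem_nil
  | cons b l ih =>
    intro h
    rw [encode_list_cons]
    rcases List.mem_cons.mp h with h | h
    · rw [← h]
      exact Nat.lt_succ_of_le (Nat.left_le_pair _ _)
    · exact Nat.lt_succ_of_le ((ih h).le.trans (Nat.right_le_pair _ _))

private theorem enc_pos {q : ℕ × Bool} {L : List (ℕ × Bool)} {LL : List (List (ℕ × Bool))}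
    (hq : q ∈ L) (hL : L ∈ LL) : q.1 < encode LL := by
  have h1 := enc_mem hq
  have h2 := enc_mem hL
  have h3 : q.1 ≤ encode q := by
    obtain ⟨x, b⟩ := q
    rw [Encodable.encode_prod_val]
    exact Nat.left_le_pair _ _
  omega

theorem taut_re : REPred (fun LL : List (List (ℕ × Bool)) => ∀ e : ℕ → Bool, ∃ L ∈ LL, Cons e L) := by
  have h1 : PrimrecRel (fun (q : ℕ × Bool) (u : ℕ) => (u / 2 ^ q.1) % 2 = q.2.toNat) := by
    refine Primrec.eq.comp ?_ ?_
    · exact Primrec.nat_mod.comp (Primrec.nat_div.comp Primrec.snd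
        (Helper423Ceer.prim_pow2.comp (Primrec.fst.comp Primrec.fst))) (Primrec.const 2)
    · exact (Primrec.dom_bool Bool.toNat).comp (Primrec.snd.comp Primrec.fst)
  have h3 : PrimrecRel (fun (LL : List (List (ℕ × Bool))) (u : ℕ) =>
      ∃ L ∈ LL, ∀ q ∈ L, (u / 2 ^ q.1) % 2 = q.2.toNat) :=
    (h1.forall_mem_list).exists_mem_list
  have h4 : PrimrecRel (fun (u : ℕ) (LL : List (List (ℕ × Bool))) =>
      ∃ L ∈ LL, ∀ q ∈ L, (u / 2 ^ q.1) % 2 = q.2.toNat) :=
    h3.comp Primrec.snd Primrec.fst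
  have h5 : PrimrecPred (fun LL : List (List (ℕ × Bool)) =>
      ∀ u ∈ List.range (2 ^ encode LL), ∃ L ∈ LL, ∀ q ∈ L, (u / 2 ^ q.1) % 2 = q.2.toNat) :=
    (h4.forall_mem_list).comp (Primrec.list_range.comp
      (Helper423Ceer.prim_pow2.comp Primrec.encode)) Primrec.id
  refine (re_prim h5).of_eq fun LL => ?_
  constructor
  · intro h e
    obtain ⟨L, hL, hq⟩ := h (Helper423Ceer.pre e (encode LL)) (List.mem_range.mpr (Helper423Ceer.pre_lt _ _))
    refine ⟨L, hL, fun q hqL => ?_⟩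
    have h6 := hq q hqL
    rw [Helper423Ceer.pre_bit e (enc_pos hqL hL)] at h6
    cases h7 : e q.1 <;> cases h8 : q.2 <;> simp_all
  · intro h u _
    obtain ⟨L, hL, hq⟩ := h fun x => decide (u / 2 ^ x % 2 = 1)
    refine ⟨L, hL, fun q hqL => ?_⟩
    have h6 := hq q hqL
    have h7 : u / 2 ^ q.1 % 2 < 2 := Nat.mod_lt _ (by norm_num)
    simp only at h6
    cases h8 : q.2
    · rw [h8, decide_eq_false_iff_not] at h6
      simp only [Bool.toNat_false]
      omega
    · rw [h8, decide_eq_true_iff] at h6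
      simp only [Bool.toNat_true]
      exact h6

private theorem cons_open (L : List (ℕ × Bool)) : IsOpen {e : ℕ → Bool | Cons e L} := by
  induction L with
  | nil =>
    have : {e : ℕ → Bool | Cons e []} = Set.univ := by
      ext e
      simp [Cons]
    rw [this]
    exact isOpen_univ
  | cons q L ih =>
    have : {e : ℕ → Bool | Cons e (q :: L)} =
        (fun e : ℕ → Bool => e q.1) ⁻¹' {q.2} ∩ {e : ℕ → Bool | Cons e L} := by
      ext e
      simp [Cons]
    rw [this]
    exact ((isOpen_discrete _).preimage (continuous_apply q.1)).inter ih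

theorem cover {W : List (ℕ × Bool) → Prop} (h : ∀ e : ℕ → Bool, ∃ L, W L ∧ Cons e L) :
    ∃ LL : List (List (ℕ × Bool)), (∀ L ∈ LL, W L) ∧ ∀ e : ℕ → Bool, ∃ L ∈ LL, Cons e L := by
  obtain ⟨t, ht⟩ := (isCompact_univ (X := ℕ → Bool)).elim_finite_subcover
    (fun L : {L // W L} => {e : ℕ → Bool | Cons e L.1}) (fun L => cons_open L.1) (by
      intro e _
      obtain ⟨L, hL, he⟩ := h e
      exact Set.mem_iUnion.mpr ⟨⟨L, hL⟩, he⟩)
  refine ⟨t.toList.map Subtype.val, ?_, ?_⟩
  · intro L hL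
    obtain ⟨L', _, rfl⟩ := List.mem_map.mp hL
    exact L'.2
  · intro e
    obtain ⟨L, hL, he⟩ := Set.mem_iUnion₂.mp (ht (Set.mem_univ e))
    exact ⟨L.1, List.mem_map.mpr ⟨L, Finset.mem_toList.mpr hL, rfl⟩, he⟩

theorem empty_sg {α : Type} [Primcodable α] {K : α → Set (ℕ → Bool)} (h : PiF Z K) :
    Sg Z (fun a => K a = ∅) := by
  obtain ⟨W, hW, hK⟩ := h
  have h1 : Sg Z (fun x : α × List (List (ℕ × Bool)) =>
      (∀ L ∈ x.2, W (x.1, L)) ∧ ∀ e : ℕ → Bool, ∃ L ∈ x.2, Cons e L) :=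
    sg_and (sg_all_list hW) (sg_re (re_comp taut_re Computable.snd))
  refine sg_iff (sg_ex h1) fun a => ?_
  constructor
  · intro ha
    refine cover (W := fun L => W (a, L)) fun e => ?_
    exact (hK a e).mp (by rw [ha]; exact Set.notMem_empty e)
  · rintro ⟨LL, hLL, ht⟩
    refine Set.eq_empty_iff_forall_notMem.mpr fun e => ?_
    obtain ⟨L, hL, he⟩ := ht e
    exact (hK a e).mpr ⟨L, hLL L hL, he⟩

end Pool.Agent.H268.DG
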