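import Mathlib
import Pool.Agent.H268.DG.T3
import Pool.Agent.H268.DG.T4
import Pool.Agent.H268.DG.T5

/-!
# T7: density lemma

`T1.lean` – `T5.lean` may be used.

Fix `j < m`, finitely many blocks `B v` (`v < H`) and for every `v` a type `s v`.  Suppose no `y` works.  For every
`v` let `w v` be the witness of `(B v).wit j hj (s v)`, and let
`A v y = {e ∈ (B v).K | ∀ q ∈ (B v).Λ, q.2 = j → e ⟨q.1, y⟩ = s v q.1}`.  Then for every `y` there is `v < H` with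
`A v y = ∅`.  The predicate `p (y, u) := ∃ v ∈ List.range H, u = w v ∧ A v y = ∅` is `Sg Z` (`pif_type`, `empty_sg`,
`sg_comp`, `sg_re`, `sg_and`, `sg_exists_mem`) and `∀ y, ∃ u, p (y, u)`.  By `sg_choose` there is `g` with
`Computes Z g` and `p (y, g y)` for all `y`.  By hypothesis there is `y` with `E j (g y) y`.  Let `v` belong to
`p (y, g y)`, take any `e ∈ (B v).K` (`ne`).  For `q ∈ (B v).Λ` with `q.2 = j`:
`e ⟨q.1, y⟩ = e ⟨q.1, g y⟩` (`inv`) `= s v q.1` (`w v = g y` is the witness).  So `e ∈ A v y`, contradiction.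
-/

namespace Pool.Agent.H268.DG

open Nat.Partrec (Code)
open Nat.Partrec.Code Encodable Denumerable
open Helper423Ceer (orc pre Computes ComputesDiagonal InDiag NontrivialCeer MLRandom MLTest)

variable {Z : ℕ → Bool} {E : ℕ → ℕ → ℕ → Prop}

theorem dens {m j : ℕ} (hj : j < m) (hE : ∀ g, Computes Z g → ∃ x, E j (g x) x)
    (H : ℕ) (B : ℕ → Blk Z E m) (s : ℕ → ℕ → Bool) :
    ∃ y, ∀ v < H, ∃ e ∈ (B v).K, ∀ q ∈ (B v).Λ, q.2 = j → e (Nat.pair q.1 y) = s v q.1 := by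
  classical
  by_contra hcon
  push Not at hcon
  choose w hw using fun v => (B v).wit j hj (s v)
  have hA : ∀ v, Sg Z (fun y : ℕ =>
      {e | e ∈ (B v).K ∧ ∀ q ∈ (B v).Λ, q.2 = j → e (Nat.pair q.1 y) = s v q.1} = ∅) :=
    fun v => empty_sg (pif_type (B v).pi (B v).Λ j (s v))
  have hp : Sg Z (fun x : ℕ × ℕ => ∃ v ∈ List.range H, x.2 = w v ∧
      {e | e ∈ (B v).K ∧ ∀ q ∈ (B v).Λ, q.2 = j → e (Nat.pair q.1 x.1) = s v q.1} = ∅) := by
    refine sg_exists_mem (List.range H) (fun v (x : ℕ × ℕ) => x.2 = w v ∧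
      {e | e ∈ (B v).K ∧ ∀ q ∈ (B v).Λ, q.2 = j → e (Nat.pair q.1 x.1) = s v q.1} = ∅) ?_
    intro v _
    refine sg_and (sg_re ?_) (sg_comp (hA v) Computable.fst)
    have h1 : PrimrecPred (fun x : ℕ × ℕ => x.2 = w v) :=
      Primrec.eq.comp Primrec.snd (Primrec.const (w v))
    exact re_prim h1
  obtain ⟨g, hg, hgp⟩ := sg_choose hp (by
    intro n
    obtain ⟨v, hv, hve⟩ := hcon n
    refine ⟨w v, v, List.mem_range.2 hv, rfl, ?_⟩
    rw [Set.eq_empty_iff_forall_notMem]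
    rintro e ⟨he, heq⟩
    obtain ⟨q, hq, hqj, hne⟩ := hve e he
    exact hne (heq q hq hqj))
  obtain ⟨y, hy⟩ := hE g hg
  obtain ⟨v, -, hgw, hemp⟩ := hgp y
  obtain ⟨e, he⟩ := (B v).ne
  have h2 : e ∈ {e | e ∈ (B v).K ∧ ∀ q ∈ (B v).Λ, q.2 = j → e (Nat.pair q.1 y) = s v q.1} := by
    refine ⟨he, fun q hq hqj => ?_⟩
    have h3 := (B v).inv e he q hq (g y) y (by rw [hqj]; exact hy)
    rw [← h3]
    have h4 : g y = w v := hgw
    rw [h4]
    exact hw v e he q hq hqj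
  have h5 : {e | e ∈ (B v).K ∧ ∀ q ∈ (B v).Λ, q.2 = j → e (Nat.pair q.1 y) = s v q.1} = ∅ := hemp
  rw [h5] at h2
  exact h2

end Pool.Agent.H268.DG
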