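import Mathlib
import Pool.Agent.H268.DG.T7

/-!
# T8: products of blocks

`T1.lean` – `T7.lean` may be used.

`shrink`: induction on the list `T`.  For the empty list take `B' = B`.  Given the blocks `B'` for `T` and a new pair
`(j, s)`, apply `dens` to `B'`, `j` and the types `fun v c => s (Nat.pair v c)`: this gives `y` such that for every `v < H`
the class `K' v = {e ∈ (B' v).K | ∀ q ∈ (B' v).Λ, q.2 = j → e ⟨q.1, y⟩ = s (Nat.pair v q.1)}` is nonempty; it is `Π⁰₁`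
(`pif_type`, `pif_fix`).  Let the new block be `(Λ, K' v)` for `v < H` (and `B' v` for `v ≥ H`); `inv`, `wit`, `lab`
are inherited from `B' v`.

`prod`: apply `shrink` to a list `T` which contains all pairs `(j, s_S)`, `j < m`, `S` a subset of the finite set
`C` of all labels (first components) occurring in `PL H (fun v => (B v).Λ)`, `s_S c = decide (c ∈ S)`
(`Finset.powerset`, `Finset.toList`).  The product is
`Λ = PL H (fun v => (B v).Λ)`, `K = {e | ∀ v < H, (fun k => e (rho v k)) ∈ (B' v).K}`: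
* `pi` is `pi_prod`; `ne`: choose `e v ∈ (B' v).K` and take the point `k ↦ e v ⟨c, x⟩` for `k = ⟨⟨v, c⟩, x⟩`;
* `lab`, `inv`: an element of `Λ` is `(Nat.pair v c, i)` with `v < H`, `(c, i) ∈ (B v).Λ`, and
  `e ⟨⟨v, c⟩, x⟩ = (fun k => e (rho v k)) ⟨c, x⟩`;
* `wit`: given `j < m` and `s`, let `S` be the set of the labels `c ∈ C` with `s c = true`, and use the witness of `(j, s_S)`.
-/

namespace Pool.Agent.H268.DG

open Nat.Partrec (Code)
open Nat.Partrec.Code Encodable Denumerable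
open Helper423Ceer (orc pre Computes ComputesDiagonal InDiag NontrivialCeer MLRandom MLTest)

variable {Z : ℕ → Bool} {E : ℕ → ℕ → ℕ → Prop}

/-- restriction of a block by a type -/
private theorem restr {m : ℕ} (B : Blk Z E m) (j y : ℕ) (s : ℕ → Bool)
    (hne : ∃ e ∈ B.K, ∀ q ∈ B.Λ, q.2 = j → e (Nat.pair q.1 y) = s q.1) :
    ∃ B' : Blk Z E m, B'.Λ = B.Λ ∧ B'.K ⊆ B.K ∧
      ∀ e ∈ B'.K, ∀ q ∈ B.Λ, q.2 = j → e (Nat.pair q.1 y) = s q.1 := by
  refine ⟨⟨B.Λ, {e | e ∈ B.K ∧ ∀ q ∈ B.Λ, q.2 = j → e (Nat.pair q.1 y) = s q.1}, B.lab,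
    pif_fix (pif_type B.pi B.Λ j s) y, ?_, ?_, ?_⟩, rfl, fun e he => he.1, fun e he => he.2⟩
  · obtain ⟨e, he, h⟩ := hne
    exact ⟨e, he, h⟩
  · intro e he
    exact B.inv e he.1
  · intro i hi t
    obtain ⟨w, hw⟩ := B.wit i hi t
    exact ⟨w, fun e he => hw e he.1⟩

theorem shrink {m : ℕ} (hE : ∀ j < m, ∀ g, Computes Z g → ∃ x, E j (g x) x)
    (H : ℕ) (B : ℕ → Blk Z E m) (T : List (ℕ × (ℕ → Bool))) (hT : ∀ t ∈ T, t.1 < m) :
    ∃ B' : ℕ → Blk Z E m, (∀ v, (B' v).Λ = (B v).Λ ∧ (B' v).K ⊆ (B v).K) ∧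
      ∀ t ∈ T, ∃ w, ∀ v < H, ∀ e ∈ (B' v).K, ∀ q ∈ (B' v).Λ, q.2 = t.1 →
        e (Nat.pair q.1 w) = t.2 (Nat.pair v q.1) := by
  induction T with
  | nil => exact ⟨B, fun v => ⟨rfl, subset_rfl⟩, fun t ht => absurd ht List.not_mem_nil⟩
  | cons t T ih =>
    obtain ⟨B', hB', hw⟩ := ih (fun t' ht' => hT t' (List.mem_cons_of_mem _ ht'))
    have htm : t.1 < m := hT t List.mem_cons_self
    obtain ⟨y, hy⟩ := dens htm (hE t.1 htm) H B' (fun v c => t.2 (Nat.pair v c))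
    have hex : ∀ v, ∃ B'' : Blk Z E m, B''.Λ = (B' v).Λ ∧ B''.K ⊆ (B' v).K ∧
        (v < H → ∀ e ∈ B''.K, ∀ q ∈ (B' v).Λ, q.2 = t.1 →
          e (Nat.pair q.1 y) = t.2 (Nat.pair v q.1)) := by
      intro v
      by_cases hv : v < H
      · obtain ⟨B'', h1, h2, h3⟩ := restr (B' v) t.1 y (fun c => t.2 (Nat.pair v c)) (hy v hv)
        exact ⟨B'', h1, h2, fun _ => h3⟩
      · exact ⟨B' v, rfl, subset_rfl, fun h => absurd h hv⟩
    choose B'' h1 h2 h3 using hex
    refine ⟨B'', fun v => ⟨(h1 v).trans (hB' v).1, (h2 v).trans (hB' v).2⟩, ?_⟩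
    intro t' ht'
    rcases List.mem_cons.1 ht' with rfl | ht'
    · refine ⟨y, fun v hv e he q hq hqt => ?_⟩
      rw [h1 v] at hq
      exact h3 v hv e he q hq hqt
    · obtain ⟨w, hw'⟩ := hw t' ht'
      refine ⟨w, fun v hv e he q hq hqt => ?_⟩
      rw [h1 v] at hq
      exact hw' v hv e (h2 v he) q hq hqt

private theorem mem_PL {H : ℕ} {Λs : ℕ → List (ℕ × ℕ)} {q : ℕ × ℕ} (hq : q ∈ PL H Λs) :
    ∃ v < H, ∃ q' ∈ Λs v, q = (Nat.pair v q'.1, q'.2) := by
  unfold PL at hq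
  rw [List.mem_flatMap] at hq
  obtain ⟨v, hv, hq⟩ := hq
  rw [List.mem_map] at hq
  obtain ⟨q', hq', rfl⟩ := hq
  exact ⟨v, List.mem_range.1 hv, q', hq', rfl⟩

private theorem rho_pair (v c x : ℕ) : rho v (Nat.pair c x) = Nat.pair (Nat.pair v c) x := by
  unfold rho
  rw [Nat.unpair_pair]

theorem prod {m : ℕ} (hE : ∀ j < m, ∀ g, Computes Z g → ∃ x, E j (g x) x)
    (H : ℕ) (B : ℕ → Blk Z E m) :
    ∃ P : Blk Z E m, P.Λ = PL H (fun v => (B v).Λ) ∧
      ∀ e ∈ P.K, ∀ v < H, (fun k => e (rho v k)) ∈ (B v).K := by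
  classical
  obtain ⟨C, hC⟩ : ∃ C : Finset ℕ, C = ((PL H (fun v => (B v).Λ)).map Prod.fst).toFinset :=
    ⟨_, rfl⟩
  obtain ⟨T, hTd⟩ : ∃ T : List (ℕ × (ℕ → Bool)), T = (List.range m).flatMap fun j =>
      C.powerset.toList.map fun S => (j, fun c => decide (c ∈ S)) := ⟨_, rfl⟩
  have hT : ∀ t ∈ T, t.1 < m := by
    intro t ht
    rw [hTd, List.mem_flatMap] at ht
    obtain ⟨j, hj, ht⟩ := ht
    rw [List.mem_map] at ht
    obtain ⟨S, -, rfl⟩ := ht
    exact List.mem_range.1 hj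
  obtain ⟨B', hB', hw⟩ := shrink hE H B T hT
  refine ⟨⟨PL H (fun v => (B v).Λ), {e | ∀ v < H, (fun k => e (rho v k)) ∈ (B' v).K}, ?_,
    pi_prod H (fun v => (B' v).K) (fun v _ => (B' v).pi), ?_, ?_, ?_⟩, rfl,
    fun e he v hv => (hB' v).2 (he v hv)⟩
  · -- labels
    intro q hq
    obtain ⟨v, -, q', hq', rfl⟩ := mem_PL hq
    exact (B v).lab q' hq'
  · -- nonempty
    choose e he using fun v => (B' v).ne
    refine ⟨fun k => e k.unpair.1.unpair.1 (Nat.pair k.unpair.1.unpair.2 k.unpair.2), ?_⟩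
    intro v _
    have h1 : (fun k => (fun k => e k.unpair.1.unpair.1
        (Nat.pair k.unpair.1.unpair.2 k.unpair.2)) (rho v k)) = e v := by
      funext k
      show e (rho v k).unpair.1.unpair.1
        (Nat.pair (rho v k).unpair.1.unpair.2 (rho v k).unpair.2) = e v k
      unfold rho
      rw [Nat.unpair_pair, Nat.unpair_pair, Nat.pair_unpair]
    rw [h1]
    exact he v
  · -- invariance
    intro e he q hq x y hxy
    obtain ⟨v, hv, q', hq', rfl⟩ := mem_PL hq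
    have h1 := (B' v).inv _ (he v hv) q' (by rw [(hB' v).1]; exact hq') x y hxy
    simp only [rho_pair] at h1
    exact h1
  · -- witnesses
    intro j hj s
    have hmem : (j, fun c => decide (c ∈ C.filter (fun c => s c = true))) ∈ T := by
      rw [hTd, List.mem_flatMap]
      refine ⟨j, List.mem_range.2 hj, ?_⟩
      rw [List.mem_map]
      refine ⟨C.filter (fun c => s c = true), ?_, rfl⟩
      rw [Finset.mem_toList, Finset.mem_powerset]
      exact Finset.filter_subset _ _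
    obtain ⟨w, hw'⟩ := hw _ hmem
    refine ⟨w, fun e he q hq hqj => ?_⟩
    have hqC : q.1 ∈ C := by
      rw [hC, List.mem_toFinset, List.mem_map]
      exact ⟨q, hq, rfl⟩
    obtain ⟨v, hv, q', hq', rfl⟩ := mem_PL hq
    have h1 := hw' v hv _ (he v hv) q' (by rw [(hB' v).1]; exact hq') hqj
    simp only [rho_pair] at h1
    show e (Nat.pair (Nat.pair v q'.1) w) = s (Nat.pair v q'.1)
    rw [h1]
    have h2 : Nat.pair v q'.1 ∈ C := hqC
    cases h3 : s (Nat.pair v q'.1) with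
    | true => simp [h2, h3]
    | false => simp [h3]

end Pool.Agent.H268.DG
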