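import Mathlib
import Pool.Agent.H268.DG.T8

/-!
# T9: activating a new relation

`T1.lean` – `T8.lean` may be used.

`keblk`: the block for `m + 1` with `Λ = [(0, m)]` and the class
`{e | (∀ x y, E m x y → e ⟨0, x⟩ = e ⟨0, y⟩) ∧ e ⟨0, a⟩ = false ∧ e ⟨0, b⟩ = true}` (`pi_ke`), where `¬ E m a b`.  Nonempty:
`e k = decide (¬ E m k.unpair.2 a)`.  `wit` for `j = m`: `w = b` if `s 0 = true` and `w = a` otherwise; for `j < m` nothing to
do (any `w`).
`lift`: a block for `m` is a block for `m + 1` (for `j = m` no label has index `m` by `lab`).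
`activate`: with `B 0 = lift p.B`, `B 1 = keblk` (and `B v = B 1` for `v > 1`) apply `prod` with `m + 1` and `H = 2`.  The new
condition has the same string, `m + 1` and the product block.  `Le q p`: if `τ` is permitted by `q` with the point `e`, then
it is permitted by `p` with the point `fun k => e (rho 0 k)`: for `(c, i) ∈ p.B.Λ` the pair `(Nat.pair 0 c, i)` is in the
list of `q`, and `(fun k => e (rho 0 k)) ⟨c, x⟩ = e ⟨⟨0, c⟩, x⟩`.
-/

namespace Pool.Agent.H268.DG

open Nat.Partrec (Code)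
open Nat.Partrec.Code Encodable Denumerable
open Helper423Ceer (orc pre Computes ComputesDiagonal InDiag NontrivialCeer MLRandom MLTest)

variable {Z : ℕ → Bool} {E : ℕ → ℕ → ℕ → Prop}

/-- If the list of `q` contains the copies with number `v` of the labels of `p`, the strings are the same and the
`v`-th component of every point of `q` is a point of `p`, then `q` extends `p`. -/
theorem le_of_component {p q : Cond Z E} (v : ℕ) (hσ : q.σ = p.σ)
    (hΛ : ∀ t ∈ p.B.Λ, (Nat.pair v t.1, t.2) ∈ q.B.Λ)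
    (hK : ∀ e ∈ q.B.K, (fun k => e (rho v k)) ∈ p.B.K) : Le q p := by
  rintro τ ⟨h1, h2, e, he, hg⟩
  rw [hσ] at h1 hg
  refine ⟨h1, h2, fun k => e (rho v k), hK e he, ?_⟩
  intro t ht x hx hx'
  have h3 := hg (Nat.pair v t.1, t.2) (hΛ t ht) x hx hx'
  have h4 : ∀ c y, rho v (Nat.pair c y) = Nat.pair (Nat.pair v c) y := by
    intro c y
    unfold rho
    rw [Nat.unpair_pair]
  show e (rho v (Nat.pair t.1 _)) ≠ e (rho v (Nat.pair t.1 x))
  rw [h4, h4]
  exact h3

namespace T9

theorem mem_PL {H : ℕ} {Λs : ℕ → List (ℕ × ℕ)} {v : ℕ} (hv : v < H) {t : ℕ × ℕ}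
    (ht : t ∈ Λs v) : (Nat.pair v t.1, t.2) ∈ PL H Λs := by
  unfold PL
  rw [List.mem_flatMap]
  exact ⟨v, List.mem_range.2 hv, List.mem_map.2 ⟨t, ht, rfl⟩⟩

/-- a block for `m` is a block for `m + 1` -/
def lift {m : ℕ} (B : Blk Z E m) : Blk Z E (m + 1) where
  Λ := B.Λ
  K := B.K
  lab := fun q hq => (B.lab q hq).trans (Nat.lt_succ_self m)
  pi := B.pi
  ne := B.ne
  inv := B.inv
  wit := by
    intro j hj s
    by_cases h : j < m
    · exact B.wit j h s
    · refine ⟨0, fun e _ q hq hqj => ?_⟩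
      have := B.lab q hq
      omega

/-- the block of the relation `E m` alone -/
def keblk {m : ℕ} (heq : Equivalence (E m)) (hSg : Sg Z (fun x : ℕ × ℕ => E m x.1 x.2))
    {a b : ℕ} (hab : ¬ E m a b) : Blk Z E (m + 1) where
  Λ := [(0, m)]
  K := {e | (∀ x y, E m x y → e (Nat.pair 0 x) = e (Nat.pair 0 y)) ∧
      e (Nat.pair 0 a) = false ∧ e (Nat.pair 0 b) = true}
  lab := by
    intro q hq
    rw [List.mem_singleton] at hq
    rw [hq]
    exact Nat.lt_succ_self m
  pi := pi_ke (R := fun x : ℕ × ℕ => E m x.1 x.2) hSg a b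
  ne := by
    classical
    refine ⟨fun k => decide (¬ E m k.unpair.2 a), ?_, ?_, ?_⟩
    · intro x y hxy
      show decide (¬ E m (Nat.pair 0 x).unpair.2 a) = decide (¬ E m (Nat.pair 0 y).unpair.2 a)
      rw [Nat.unpair_pair, Nat.unpair_pair]
      refine decide_eq_decide.2 (not_congr ?_)
      exact ⟨fun h => heq.trans (heq.symm hxy) h, fun h => heq.trans hxy h⟩
    · show decide (¬ E m (Nat.pair 0 a).unpair.2 a) = false
      rw [Nat.unpair_pair]
      exact decide_eq_false (not_not.2 (heq.refl a))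
    · show decide (¬ E m (Nat.pair 0 b).unpair.2 a) = true
      rw [Nat.unpair_pair]
      exact decide_eq_true fun h => hab (heq.symm h)
  inv := by
    intro e he q hq x y hxy
    rw [List.mem_singleton] at hq
    subst hq
    exact he.1 x y hxy
  wit := by
    intro j _ s
    refine ⟨if s 0 = true then b else a, fun e he q hq _ => ?_⟩
    rw [List.mem_singleton] at hq
    subst hq
    show e (Nat.pair 0 (if s 0 = true then b else a)) = s 0
    by_cases h : s 0 = true
    · rw [if_pos h, h]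
      exact he.2.2
    · rw [if_neg h, Bool.eq_false_of_not_eq_true h]
      exact he.2.1

end T9

theorem activate (hE : ∀ j, ∀ g, Computes Z g → ∃ x, E j (g x) x)
    (heq : ∀ j, Equivalence (E j)) (hSg : ∀ j, Sg Z (fun x : ℕ × ℕ => E j x.1 x.2))
    (hnt : ∀ j, ∃ a b, ¬ E j a b) (p : Cond Z E) :
    ∃ q : Cond Z E, Le q p ∧ q.m = p.m + 1 ∧ q.σ = p.σ := by
  obtain ⟨a, b, hab⟩ := hnt p.m
  obtain ⟨B, hB0, hB1⟩ : ∃ B : ℕ → Blk Z E (p.m + 1), B 0 = T9.lift p.B ∧
      B 1 = T9.keblk (heq p.m) (hSg p.m) hab :=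
    ⟨fun v => if v = 0 then T9.lift p.B else T9.keblk (heq p.m) (hSg p.m) hab, rfl, rfl⟩
  obtain ⟨P, hP, hPK⟩ := prod (m := p.m + 1) (fun j _ => hE j) 2 B
  have h0 : ∀ t ∈ p.B.Λ, (Nat.pair 0 t.1, t.2) ∈ P.Λ := by
    intro t ht
    rw [hP]
    refine T9.mem_PL (Λs := fun v => (B v).Λ) (by norm_num) ?_
    show t ∈ (B 0).Λ
    rw [hB0]
    exact ht
  have h1 : (Nat.pair 1 0, p.m) ∈ P.Λ := by
    rw [hP]
    refine T9.mem_PL (Λs := fun v => (B v).Λ) (t := (0, p.m)) (by norm_num) ?_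
    show (0, p.m) ∈ (B 1).Λ
    rw [hB1]
    exact List.mem_singleton.2 rfl
  refine ⟨⟨p.σ, p.m + 1, P, p.zc, ?_⟩, ?_, rfl, rfl⟩
  · intro j hj
    by_cases h : j < p.m
    · obtain ⟨t, ht, htj⟩ := p.act j h
      exact ⟨_, h0 t ht, htj⟩
    · refine ⟨_, h1, ?_⟩
      show p.m = j
      omega
  · refine le_of_component 0 rfl h0 fun e he => ?_
    have h2 := hPK e he 0 (by norm_num)
    rw [hB0] at h2
    exact h2

end Pool.Agent.H268.DG
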