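import Mathlib
import Pool.Agent.H268.DG.T6
import Pool.Agent.H268.DG.T9
import Pool.Agent.H268.DG.T10

/-!
# T11: forcing the requirement of a functional

`T1.lean` – `T10.lean` may be used (`le_of_component` in `T9.lean`, `take` in `T10.lean`).

For `n, v` let `A n v = {e ∈ p.B.K | ∀ τ, p.σ <+: τ → ZCol Z τ → Gd p.B.Λ p.σ.length e τ → ¬ Red F τ n v}`; `pif_avoid` gives
`PiF Z (fun x : ℕ × ℕ => A x.1 x.2)`.

Case 1: there is `n` such that `A n v ≠ ∅` for all `v < h n`.  If `h n = 0` take `q = p` and this `n`.  Otherwise let `H = h n > 0`,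
`B v` = the block with the list `p.B.Λ` and the class `A n v` (`pif_fix`; `lab`, `inv`, `wit` inherited from `p.B`) for `v < H`,
`B v = p.B` for `v ≥ H`.  `prod` gives a block `P`; `q` = condition with string `p.σ`, number `p.m`, block `P` (`act` from
`(Nat.pair 0 c, j) ∈ PL ..` as `H > 0`).  `Le q p` by `le_of_component 0`.  If `τ` is permitted by `q` with the point `e`, and
`v < H`, then `(fun k => e (rho v k)) ∈ A n v` and `τ` is good for this point, so `¬ Red F τ n v`.

Case 2: for every `n` there is `v < h n` with `A n v = ∅`.  The predicate `p' (n, v) := v < h n ∧ A n v = ∅` is `Sg Z` (`empty_sg`;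
`v < h n` is computable since `h` is).  By `sg_choose` there is `f` with `Computes Z f`, `f n < h n` and `A n (f n) = ∅` for
all `n`.  By `hZ : NoBdDnc Z` (with `Helper423Ceer.computes_iff`) there is `n` with `f n ∈ eval (ofNat Code n) n`.  Take any
`e ∈ p.B.K`; as `e ∉ A n (f n)` there is `τ` with `p.σ <+: τ`, `ZCol Z τ`, `Gd ..`, `Red F τ n (f n)`.  So `Ok p τ`, and `take` gives
`q` with string `τ`.
-/

namespace Pool.Agent.H268.DG

open Nat.Partrec (Code)
open Nat.Partrec.Code Encodable Denumerable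
open Helper423Ceer (orc pre Computes ComputesDiagonal InDiag NontrivialCeer MLRandom MLTest)

variable {Z : ℕ → Bool} {E : ℕ → ℕ → ℕ → Prop}

theorem req (hZ : NoBdDnc Z) (hE : ∀ j, ∀ g, Computes Z g → ∃ x, E j (g x) x)
    (p : Cond Z E) {F : ℕ →. ℕ} (hF : Nat.Partrec F) {h : ℕ → ℕ} (hh : Computable h) :
    ∃ q : Cond Z E, Le q p ∧ q.m = p.m ∧
      ((∃ n, ∀ τ, Ok q τ → ∀ v < h n, ¬ Red F τ n v) ∨
        ∃ n v, Red F q.σ n v ∧ v ∈ Code.eval (Denumerable.ofNat Code n) n) := by
  classical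
  set A : ℕ × ℕ → Set (ℕ → Bool) := fun x => {e | e ∈ p.B.K ∧ ∀ τ, p.σ <+: τ → ZCol Z τ →
    Gd p.B.Λ p.σ.length e τ → ¬ Red F τ x.1 x.2} with hA
  have hAp : PiF Z A := pif_avoid p.B.pi hF p.B.Λ p.σ.length p.σ
  by_cases hcase : ∃ n, ∀ v < h n, (A (n, v)).Nonempty
  · obtain ⟨n, hn⟩ := hcase
    rcases Nat.eq_zero_or_pos (h n) with h0 | hpos
    · refine ⟨p, fun τ hτ => hτ, rfl, Or.inl ⟨n, fun τ _ v hv => ?_⟩⟩
      rw [h0] at hv
      exact absurd hv (Nat.not_lt_zero v)
    · -- the blocks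
      let B : ℕ → Blk Z E p.m := fun v => if hv : v < h n then
        { Λ := p.B.Λ
          K := A (n, v)
          lab := p.B.lab
          pi := pif_fix hAp (n, v)
          ne := hn v hv
          inv := fun e he => p.B.inv e he.1
          wit := fun j hj s => by
            obtain ⟨w, hw⟩ := p.B.wit j hj s
            exact ⟨w, fun e he => hw e he.1⟩ } else p.B
      have hBΛ : ∀ v, (B v).Λ = p.B.Λ := by
        intro v
        by_cases hv : v < h n
        · simp only [B, dif_pos hv]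
        · simp only [B, dif_neg hv]
      have hBK : ∀ v, v < h n → (B v).K = A (n, v) := by
        intro v hv
        simp only [B, dif_pos hv]
      obtain ⟨P, hPΛ, hPK⟩ := prod (m := p.m) (fun j _ => hE j) (h n) B
      have hmem : ∀ v < h n, ∀ t ∈ p.B.Λ, (Nat.pair v t.1, t.2) ∈ P.Λ := by
        intro v hv t ht
        rw [hPΛ]
        refine List.mem_flatMap.2 ⟨v, List.mem_range.2 hv, List.mem_map.2 ⟨t, ?_, rfl⟩⟩
        change t ∈ (B v).Λ
        rw [hBΛ]
        exact ht
      let q : Cond Z E := ⟨p.σ, p.m, P, p.zc, fun j hj => by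
        obtain ⟨t, ht, htj⟩ := p.act j hj
        exact ⟨(Nat.pair 0 t.1, t.2), hmem 0 hpos t ht, htj⟩⟩
      refine ⟨q, le_of_component 0 rfl (fun t ht => hmem 0 hpos t ht) (fun e he => ?_), rfl,
        Or.inl ⟨n, ?_⟩⟩
      · have h1 := hPK e he 0 hpos
        rw [hBK 0 hpos] at h1
        exact h1.1
      · rintro τ ⟨h1, h2, e, he, hg⟩ v hv
        have h3 := hPK e he v hv
        rw [hBK v hv] at h3
        refine h3.2 τ h1 h2 ?_
        intro t ht x hx1 hx2
        have h4 := hg (Nat.pair v t.1, t.2) (hmem v hv t ht) x hx1 hx2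
        have h5 : ∀ z, rho v (Nat.pair t.1 z) = Nat.pair (Nat.pair v t.1) z := by
          intro z
          unfold rho
          rw [Nat.unpair_pair]
        change e (rho v (Nat.pair t.1 _)) ≠ e (rho v (Nat.pair t.1 x))
        rw [h5, h5]
        exact h4
  · push Not at hcase
    have hlt : REPred (fun x : ℕ × ℕ => x.2 < h x.1) := by
      have h1 : REPred (fun x : ℕ × ℕ => x.1 < x.2) := re_prim Primrec.nat_lt
      exact re_comp (f := fun x : ℕ × ℕ => (x.2, h x.1)) h1
        (Computable.pair Computable.snd (hh.comp Computable.fst))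
    have hsg : Sg Z (fun x : ℕ × ℕ => x.2 < h x.1 ∧ A x = ∅) :=
      sg_and (sg_re hlt) (empty_sg hAp)
    obtain ⟨f, hf, hfn⟩ := sg_choose hsg (fun n => by
      obtain ⟨v, hv, hv'⟩ := hcase n
      exact ⟨v, hv, hv'⟩)
    have hex : ∃ n, f n ∈ Code.eval (Denumerable.ofNat Code n) n := by
      by_contra hcon
      push Not at hcon
      exact hZ f h hh (fun n => (hfn n).1) hcon (Helper423Ceer.computes_iff.2 hf)
    obtain ⟨n, hn⟩ := hex
    obtain ⟨e, he⟩ := p.B.ne
    have h1 : e ∉ A (n, f n) := by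
      rw [(hfn n).2]
      exact Set.notMem_empty e
    have h2 : ∃ τ, p.σ <+: τ ∧ ZCol Z τ ∧ Gd p.B.Λ p.σ.length e τ ∧ Red F τ n (f n) := by
      by_contra hcon
      apply h1
      refine ⟨he, fun τ a b c d => hcon ⟨τ, a, b, c, d⟩⟩
    obtain ⟨τ, a, b, c, d⟩ := h2
    obtain ⟨q, hq1, hq2, hq3⟩ := take p ⟨a, b, e, he, c⟩
    refine ⟨q, hq1, hq2, Or.inr ⟨n, f n, ?_, hn⟩⟩
    rw [hq3]
    exact d

end Pool.Agent.H268.DG
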