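import Mathlib
import Pool.Agent.H268.DG.T11

/-!
# T12: the generic function

`T1.lean` – `T11.lean` may be used.

`Ok p p.σ` holds always (`Gd` is vacuous, `K` is nonempty), so `Le q p` implies `p.σ <+: q.σ`.
There is a starting condition: string `[]`, `m = 0`, `Λ = []`, `K = Set.univ` (`PiC` with `W = fun _ => False`).

Requirements: enumerate the pairs (code `c`, computable `h`): computable functions `h : ℕ → ℕ` are the total ones among
`fun n => eval d n`; let requirement number `k` be the pair `(c, d)` of codes decoded from `k`; if there is a (computable) `h`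
with `∀ n, h n ∈ eval d n`, this `h` is unique and is the one meant.  Let `D k q` say: `k < q.m`, `k < q.σ.length`, and for
the pair `(c, d)` with number `k` and every `h` with `∀ n, h n ∈ eval d n`:
`(∃ n, ∀ τ, Ok q τ → ∀ v < h n, ¬ Red (eval c) τ n v) ∨ ∃ n v, Red (eval c) q.σ n v ∧ v ∈ eval (ofNat Code n) n`.
Every condition `p` has an extension `q` with `D k q`: iterate `activate` (it keeps the string and raises `m` by one),
then `ext_many`, then `req` (the string can only get longer).  So there is a sequence `p 0, p 1, …` with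
`Le (p (k+1)) (p k)` and `D k (p (k+1))`.  Let `g x = (p (x+1)).σ.getD x 0`; all strings `(p k).σ` are initial segments of `g`.

* For all `k ≤ k'`: `Ok (p k) (p k').σ`.
* Column `0`: `ZCol`.
* For `i`: take `k = i + 1`, so `i < (p k).m`; let `L = (p k).σ.length`.  For a position `P = ⟨i+1, x⟩ ≥ L` take `k' ≥ k` with
  `P < (p k').σ.length` and `Ok (p k) (p k').σ` with a point `e`; with a label `(c, i)` (`act`) `e ⟨c, g P⟩ ≠ e ⟨c, x⟩`, so
  `¬ E i (g P) x` by `inv`.
* Last part: for `F = eval c`, `h` and `k` the number of `(c, d)`: if the first alternative holds for `p (k+1)` with `n`, and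
  `v ∈ F ⟨s, ⟨pre (cod g) s, n⟩⟩` with `v < h n`, take `k' > k` with `s ≤ (p k').σ.length`: `pre (codl (p k').σ) s = pre (cod g) s`
  (positions `< s` only involve arguments `< s`; here `codl τ ⟨x, y⟩ = decide (τ[x]? = some y)`, `cod g ⟨x, y⟩ = decide (g x = y)`),
  so `Red F (p k').σ n v`, contradiction.  If the second alternative holds with `n, v`, then
  `v ∈ F ⟨s, ⟨pre (cod g) s, n⟩⟩` for some `s`.
-/

namespace Pool.Agent.H268.DG

open Nat.Partrec (Code)
open Nat.Partrec.Code Encodable Denumerable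
open Helper423Ceer (orc pre Computes ComputesDiagonal InDiag NontrivialCeer MLRandom MLTest)

variable {Z : ℕ → Bool} {E : ℕ → ℕ → ℕ → Prop}

namespace T12

lemma ok_self (p : Cond Z E) : Ok p p.σ := by
  obtain ⟨e, he⟩ := p.B.ne
  refine ⟨List.prefix_rfl, p.zc, e, he, ?_⟩
  intro q _ x h1 h2
  exact absurd h2 (not_lt.mpr h1)

lemma le_refl' (p : Cond Z E) : Le p p := fun _ h => h

lemma le_trans' {p q r : Cond Z E} (h : Le r q) (h' : Le q p) : Le r p := fun τ hτ => h' τ (h τ hτ)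

lemma le_prefix {p q : Cond Z E} (h : Le q p) : p.σ <+: q.σ := (h q.σ (ok_self q)).1

lemma pre_congr' {X Y : ℕ → Bool} (s : ℕ) (h : ∀ i < s, X i = Y i) : pre X s = pre Y s := by
  induction s with
  | zero => simp [Helper423Ceer.pre]
  | succ s ih =>
    rw [Helper423Ceer.pre_succ, Helper423Ceer.pre_succ, ih (fun i hi => h i (by omega)),
      h s (by omega)]

/-- the starting block -/
def blk0 (Z : ℕ → Bool) (E : ℕ → ℕ → ℕ → Prop) : Blk Z E 0 where
  Λ := []
  K := Set.univ
  lab := by simp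
  pi := ⟨fun _ => False, sg_re (re_iff.mpr ⟨fun _ _ => False,
    ⟨fun _ => instDecidableFalse, (Primrec.const false).of_eq (by simp)⟩, by simp⟩), by simp⟩
  ne := Set.univ_nonempty
  inv := by simp
  wit := by intro j hj; omega

/-- the starting condition -/
def cond0 (Z : ℕ → Bool) (E : ℕ → ℕ → ℕ → Prop) : Cond Z E where
  σ := []
  m := 0
  B := blk0 Z E
  zc := by intro x hx; simp at hx
  act := by intro j hj; omega

/-- requirement number `k` is decided by `q` -/
def Dec (k : ℕ) (q : Cond Z E) : Prop :=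
  ∀ h : ℕ → ℕ, (∀ n, h n ∈ Code.eval (Denumerable.ofNat Code k.unpair.2) n) →
    (∃ n, ∀ τ, Ok q τ → ∀ v < h n,
      ¬ Red (Code.eval (Denumerable.ofNat Code k.unpair.1)) τ n v) ∨
    ∃ n v, Red (Code.eval (Denumerable.ofNat Code k.unpair.1)) q.σ n v ∧
      v ∈ Code.eval (Denumerable.ofNat Code n) n

lemma many_act (hE : ∀ j, ∀ g, Computes Z g → ∃ x, E j (g x) x)
    (heq : ∀ j, Equivalence (E j)) (hSg : ∀ j, Sg Z (fun x : ℕ × ℕ => E j x.1 x.2))
    (hnt : ∀ j, ∃ a b, ¬ E j a b) (p : Cond Z E) (k : ℕ) :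
    ∃ q : Cond Z E, Le q p ∧ k ≤ q.m := by
  induction k with
  | zero => exact ⟨p, le_refl' p, Nat.zero_le _⟩
  | succ k ih =>
    obtain ⟨q, h1, h2⟩ := ih
    obtain ⟨r, h3, h4, -⟩ := activate hE heq hSg hnt q
    exact ⟨r, le_trans' h3 h1, by omega⟩

lemma step (hZ : NoBdDnc Z) (hE : ∀ j, ∀ g, Computes Z g → ∃ x, E j (g x) x)
    (heq : ∀ j, Equivalence (E j)) (hSg : ∀ j, Sg Z (fun x : ℕ × ℕ => E j x.1 x.2))
    (hnt : ∀ j, ∃ a b, ¬ E j a b) (p : Cond Z E) (k : ℕ) :
    ∃ q : Cond Z E, Le q p ∧ k < q.m ∧ k < q.σ.length ∧ Dec k q := by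
  obtain ⟨q1, h1, h2⟩ := many_act hE heq hSg hnt p (k + 1)
  obtain ⟨q2, h3, h4, h5⟩ := ext_many q1 k
  by_cases hh : ∃ h : ℕ → ℕ, ∀ n, h n ∈ Code.eval (Denumerable.ofNat Code k.unpair.2) n
  · obtain ⟨h, hh⟩ := hh
    have hcomp : Computable h := by
      have e1 : (Code.eval (Denumerable.ofNat Code k.unpair.2)) = (h : ℕ →. ℕ) := by
        funext n
        exact Part.eq_some_iff.mpr (hh n)
      have e2 : Nat.Partrec (Code.eval (Denumerable.ofNat Code k.unpair.2)) :=
        Nat.Partrec.Code.exists_code.mpr ⟨_, rfl⟩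
      rw [e1] at e2
      exact Partrec.nat_iff.mpr e2
    obtain ⟨q3, h6, h7, h8⟩ := req hZ hE q2
      (F := Code.eval (Denumerable.ofNat Code k.unpair.1))
      (Nat.Partrec.Code.exists_code.mpr ⟨_, rfl⟩) hcomp
    refine ⟨q3, le_trans' h6 (le_trans' h3 h1), by omega,
      lt_of_lt_of_le h5 (le_prefix h6).length_le, ?_⟩
    intro h' hh'
    have : h' = h := by
      funext n
      exact Part.mem_unique (hh' n) (hh n)
    rw [this]
    exact h8
  · refine ⟨q2, le_trans' h3 h1, by omega, h5, ?_⟩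
    intro h' hh'
    exact absurd ⟨h', hh'⟩ hh

end T12

open T12 in
theorem gen (hZ : NoBdDnc Z) (hE : ∀ j, ∀ g, Computes Z g → ∃ x, E j (g x) x)
    (heq : ∀ j, Equivalence (E j)) (hSg : ∀ j, Sg Z (fun x : ℕ × ℕ => E j x.1 x.2))
    (hnt : ∀ j, ∃ a b, ¬ E j a b) :
    ∃ g : ℕ → ℕ, (∀ x, g (Nat.pair 0 x) = (Z x).toNat) ∧
      (∀ i, ∃ L, ∀ x, L ≤ Nat.pair (i + 1) x → ¬ E i (g (Nat.pair (i + 1) x)) x) ∧
      ∀ F : ℕ →. ℕ, Nat.Partrec F → ∀ h : ℕ → ℕ, Computable h →
        (∃ n, ∀ v < h n, ¬ ∃ s, v ∈ F (Nat.pair s (Nat.pair (pre (cod g) s) n))) ∨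
        ∃ n v, (∃ s, v ∈ F (Nat.pair s (Nat.pair (pre (cod g) s) n))) ∧
          v ∈ Code.eval (Denumerable.ofNat Code n) n := by
  choose nx hnx using (step hZ hE heq hSg hnt)
  obtain ⟨P, hP⟩ : ∃ P : ℕ → Cond Z E, ∀ k, P (k + 1) = nx (P k) k :=
    ⟨fun k => Nat.rec (cond0 Z E) (fun k p => nx p k) k, fun _ => rfl⟩
  have hle1 : ∀ k, Le (P (k + 1)) (P k) := fun k => by rw [hP]; exact (hnx (P k) k).1
  have hm : ∀ k, k < (P (k + 1)).m := fun k => by rw [hP]; exact (hnx (P k) k).2.1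
  have hlen : ∀ k, k < (P (k + 1)).σ.length := fun k => by rw [hP]; exact (hnx (P k) k).2.2.1
  have hdec : ∀ k, Dec k (P (k + 1)) := fun k => by rw [hP]; exact (hnx (P k) k).2.2.2
  have hle : ∀ k k', k ≤ k' → Le (P k') (P k) := by
    intro k k' h
    induction k', h using Nat.le_induction with
    | base => exact le_refl' _
    | succ n _ ih => exact le_trans' (hle1 n) ih
  have hpre : ∀ k k', k ≤ k' → (P k).σ <+: (P k').σ := fun k k' h => le_prefix (hle k k' h)
  have hlen' : ∀ k, k ≤ (P k).σ.length := by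
    intro k
    cases k with
    | zero => exact Nat.zero_le _
    | succ k => exact hlen k
  obtain ⟨g, hgdef⟩ : ∃ g : ℕ → ℕ, ∀ x, g x = (P (x + 1)).σ.getD x 0 := ⟨_, fun _ => rfl⟩
  have hget : ∀ k k' x, k ≤ k' → x < (P k).σ.length →
      (P k).σ.getD x 0 = (P k').σ.getD x 0 := by
    intro k k' x hk hx
    obtain ⟨t, ht⟩ := hpre k k' hk
    rw [← ht, List.getD_append _ _ _ _ hx]
  have hg : ∀ k x, x < (P k).σ.length → (P k).σ.getD x 0 = g x := by
    intro k x hx
    rw [hgdef]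
    rcases le_total k (x + 1) with h | h
    · exact hget k (x + 1) x h hx
    · exact (hget (x + 1) k x h (hlen x)).symm
  have hcod : ∀ k s, s ≤ (P k).σ.length → pre (codl (P k).σ) s = pre (cod g) s := by
    intro k s hs
    apply pre_congr'
    intro i hi
    have h1 : i.unpair.1 < (P k).σ.length :=
      lt_of_le_of_lt (Nat.unpair_left_le i) (lt_of_lt_of_le hi hs)
    have h2 : (P k).σ[i.unpair.1]? = some (g i.unpair.1) := by
      rw [← hg k _ h1, List.getD_eq_getElem _ _ h1, List.getElem?_eq_getElem h1]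
    simp only [codl, cod, h2, Option.some.injEq]
  refine ⟨g, ?_, ?_, ?_⟩
  · intro x
    rw [hgdef]
    exact (P (Nat.pair 0 x + 1)).zc x (hlen _)
  · intro i
    refine ⟨(P (i + 1)).σ.length, ?_⟩
    intro x hx hEx
    set p := Nat.pair (i + 1) x with hp
    obtain ⟨-, -, e, he, hgd⟩ := hle (i + 1) (max (i + 1) (p + 1)) (le_max_left _ _)
      (P (max (i + 1) (p + 1))).σ (ok_self _)
    have hplen : p < (P (max (i + 1) (p + 1))).σ.length :=
      lt_of_lt_of_le (hlen p) (hpre _ _ (le_max_right _ _)).length_le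
    obtain ⟨q, hq, hqi⟩ := (P (i + 1)).act i (hm i)
    have h1 := hgd q hq x (by rw [hqi]; exact hx) (by rw [hqi]; exact hplen)
    rw [hqi, ← hp, hg _ _ hplen] at h1
    apply h1
    apply (P (i + 1)).B.inv e he q hq
    rw [hqi]
    exact hEx
  · intro F hF h hh
    obtain ⟨c, hc⟩ := Nat.Partrec.Code.exists_code.mp hF
    obtain ⟨d, hd⟩ := Nat.Partrec.Code.exists_code.mp (Partrec.nat_iff.mp hh)
    have hk := hdec (Nat.pair (encode c) (encode d)) h (by
      intro n
      rw [Nat.unpair_pair, Denumerable.ofNat_encode, hd]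
      exact Part.mem_some _)
    rw [Nat.unpair_pair] at hk
    simp only [Denumerable.ofNat_encode, hc] at hk
    set k := Nat.pair (encode c) (encode d) with hkdef
    rcases hk with ⟨n, hn⟩ | ⟨n, v, ⟨s, hs, hv⟩, hev⟩
    · left
      refine ⟨n, ?_⟩
      rintro v hv ⟨s, hs⟩
      have h1 : s ≤ (P (max (k + 1) s)).σ.length :=
        le_trans (le_max_right _ _) (hlen' _)
      apply hn (P (max (k + 1) s)).σ (hle _ _ (le_max_left _ _) _ (ok_self _)) v hv
      refine ⟨s, h1, ?_⟩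
      rw [hcod _ _ h1]
      exact hs
    · right
      refine ⟨n, v, ⟨s, ?_⟩, hev⟩
      rw [hcod _ _ hs] at hv
      exact hv

end Pool.Agent.H268.DG
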