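import Mathlib
import Pool.Agent.H268.DG.T3

/-!
# T13a: countability, the code of a function computes the function

`T1.lean`, `T2.lean`, `T3.lean` may be used.  Only the points of the following sketch on `countable_ceers` and
`cod_computes` matter here.

The set of the relations `E` with `CeerIn Z E` is countable (each one is determined by an `f` recursive in `Z`; these are
countably many: for instance because by `Helper423Ceer.apx_of_recursiveIn` the graph of `f` is determined by a partial recursive
function, i.e. by a code; or use the predicate `V` of `Sg Z`, a c.e. predicate, and `re_iff`).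
Let `S` be the set of the `E` with `CeerIn Z E` without diagonal function computable from `Z`.
If `S` is empty, take `X = Z`.  Otherwise enumerate `S` as `E 0, E 1, …` (`Set.Countable.exists_eq_range`) and apply `gen`
(`sg_of_recursiveIn` and `sg_comp` give `Sg Z`), let `g` be the function and `X = cod g`.
* `g` is computable from `X`: `g x` = the first `v` with `X ⟨x, v⟩ = true` (`Nat.rfind`; or via `Helper423Ceer.computes_iff`:
  at stage `s` with `pre X s` output the first `v` with `⟨x, v⟩ < s` and bit `1`; `pre_bit`).
* `Z` is computable from `X`: `(Z x).toNat = g ⟨0, x⟩`.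
* Diagonal functions: if `E` has one computable from `Z` use transitivity.  Otherwise `E = E i`; the function
  `x ↦ g ⟨i+1, x⟩` is right for all `x ≥ L` (as `x ≤ ⟨i+1, x⟩`); for the finitely many `x < L` use a table (a list) of
  values `d x` with `¬ E (d x) x` (they exist as `E` is an equivalence relation with two classes).  The calculus `Helper423Ceer.TR`
  (`TR.prim`, `TR.comp`, `TR.pair`) is enough: `x ↦ if x < L then table.getD x 0 else y` is a primitive recursive function of
  the pair of `x` and `y = g ⟨i+1, x⟩`.
* `NoBdDnc X`: let `f` be reducible to `X` with `f n < h n`, `f` DNC.  By `Helper423Ceer.computes_iff` there is `F` with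
  `f x = y ↔ ∃ s, y ∈ F ⟨s, ⟨pre X s, x⟩⟩`.  Both alternatives of `gen` are contradictory.
-/

namespace Pool.Agent.H268.DG

open Nat.Partrec (Code)
open Nat.Partrec.Code Encodable Denumerable
open Helper423Ceer (orc pre Computes ComputesDiagonal InDiag NontrivialCeer MLRandom MLTest)

variable {Z : ℕ → Bool}

namespace T13a

/-- the c.e. predicate with the index `c` -/
def Vc (c : Code) (x : ℕ × List (ℕ × Bool)) : Prop := (eval c (encode x)).Dom

theorem exists_Vc {V : ℕ × List (ℕ × Bool) → Prop} (h : REPred V) : ∃ c, ∀ x, V x ↔ Vc c x := by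
  have h1 : Nat.Partrec fun n => Part.bind (decode (α := ℕ × List (ℕ × Bool)) n) fun a =>
      (Part.assert (V a) fun _ => Part.some ()).map encode := h
  obtain ⟨c, hc⟩ := exists_code.1 h1
  refine ⟨c, fun x => ?_⟩
  rw [Vc, hc]
  simp [Part.assert]

/-- the relation with the index `c` -/
def Ec (Z : ℕ → Bool) (c : Code) : ℕ → ℕ → Prop := fun x y =>
  ∃ L, Vc c (Nat.pair x y, L) ∧ Cons Z L

end T13a

theorem countable_ceers (Z : ℕ → Bool) : {E : ℕ → ℕ → Prop | CeerIn Z E}.Countable := by
  refine Set.Countable.mono ?_ (Set.countable_range (T13a.Ec Z))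
  rintro E ⟨-, ⟨f, hf, hE⟩, -⟩
  obtain ⟨V, hV, hfV⟩ := sg_of_recursiveIn hf
  obtain ⟨c, hc⟩ := T13a.exists_Vc hV
  refine ⟨c, ?_⟩
  funext x y
  apply propext
  rw [hE x y]
  refine Iff.trans ?_ (hfV (Nat.pair x y)).symm
  simp only [T13a.Ec, hc]

/-- The real `cod g` computes `g`. -/
theorem cod_computes (g : ℕ → ℕ) : TuringReducible (fun n => Part.some (g n)) (orc (cod g)) := by
  refine RecursiveIn.iff_nat.2 ?_
  have hX : Helper423Ceer.TR {orc (cod g)} (fun n => (cod g n).toNat) :=
    Nat.RecursiveIn.oracle _ rfl
  have h1 : Helper423Ceer.TR {orc (cod g)} (fun q : ℕ => 1 - (cod g q).toNat) :=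
    (Helper423Ceer.TR.prim (Primrec.nat_sub.comp (Primrec.const 1) Primrec.id)).comp hX
  have h2 := Nat.RecursiveIn.rfind h1
  refine h2.of_eq fun n => ?_
  rw [Part.eq_some_iff]
  refine Nat.mem_rfind.2 ?_
  constructor
  · simp [cod]
  · intro m hm
    have : g n ≠ m := by omega
    simp [cod, this]

end Pool.Agent.H268.DG
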