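import Mathlib
import Pool.Agent.H268.DG.T12
import Pool.Agent.H268.DG.T13a

/-!
# T13: the relativised theorem

`T1.lean` – `T12.lean` and `T13a.lean` may be used (`countable_ceers`, `cod_computes` are there).

The set of the relations `E` with `CeerIn Z E` is countable (each one is determined by an `f` recursive in `Z`; these are
countably many: for instance because by `Helper423Ceer.apx_of_recursiveIn` the graph of `f` is determined by a partial recursive
function, i.e. by a code; or use the predicate `V` of `Sg Z`, a c.e. predicate, and `re_iff`).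
Let `S` be the set of the `E` with `CeerIn Z E` without diagonal function computable from `Z`.
If `S` is empty, take `X = Z`.  Otherwise enumerate `S` as `E 0, E 1, …` (`Set.Countable.exists_eq_range`) and apply `gen`
(`sg_of_recursiveIn` and `sg_comp` give `Sg Z`), let `g` be the function and `X = cod g`.
* `g` is computable from `X`: `g x` = the first `v` with `X ⟨x, v⟩ = true` (`Nat.rfind`; or via `Helper423Ceer.computes_iff`:
  at stage `s` with `pre X s` output the first `v` with `⟨x, v⟩ < s` and bit `1`; `pre_bit`).
* `Z` is computable from `X`: `(Z x).toNat = g ⟨0, x⟩`.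
* Diagonal functions: if `E` has one computable from `Z` use transitivity.  Otherwise `E = E i`; the function
  `x ↦ g ⟨i+1, x⟩` is right for all `x ≥ L` (as `x ≤ ⟨i+1, x⟩`); for the finitely many `x < L` use a table (a list) of
  values `d x` with `¬ E (d x) x` (they exist as `E` is an equivalence relation with two classes).  The calculus `Helper423Ceer.TR`
  (`TR.prim`, `TR.comp`, `TR.pair`) is enough: `x ↦ if x < L then table.getD x 0 else y` is a primitive recursive function of
  the pair of `x` and `y = g ⟨i+1, x⟩`.
* `NoBdDnc X`: let `f` be reducible to `X` with `f n < h n`, `f` DNC.  By `Helper423Ceer.computes_iff` there is `F` with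
  `f x = y ↔ ∃ s, y ∈ F ⟨s, ⟨pre X s, x⟩⟩`.  Both alternatives of `gen` are contradictory.
-/

namespace Pool.Agent.H268.DG

open Nat.Partrec (Code)
open Nat.Partrec.Code Encodable Denumerable
open Helper423Ceer (orc pre Computes ComputesDiagonal InDiag NontrivialCeer MLRandom MLTest)

variable {Z : ℕ → Bool}

theorem rel_thm (hZ : NoBdDnc Z) :
    ∃ X : ℕ → Bool, TuringReducible (orc Z) (orc X) ∧
      (∀ E, CeerIn Z E → ComputesDiagonal (orc X) E) ∧ NoBdDnc X := by
  classical
  by_cases hS : ({E | CeerIn Z E ∧ ¬ ComputesDiagonal (orc Z) E} : Set (ℕ → ℕ → Prop)).Nonempty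
  swap
  · refine ⟨Z, TuringReducible.refl _, fun E hE => ?_, hZ⟩
    by_contra hcon
    exact hS ⟨E, hE, hcon⟩
  have hc : ({E | CeerIn Z E ∧ ¬ ComputesDiagonal (orc Z) E} : Set (ℕ → ℕ → Prop)).Countable :=
    (countable_ceers Z).mono fun E hE => hE.1
  obtain ⟨E, hE⟩ := hc.exists_eq_range hS
  have hmem : ∀ j, CeerIn Z (E j) ∧ ¬ ComputesDiagonal (orc Z) (E j) := by
    intro j
    have h1 : E j ∈ ({E | CeerIn Z E ∧ ¬ ComputesDiagonal (orc Z) E} : Set (ℕ → ℕ → Prop)) := by
      rw [hE]
      exact Set.mem_range_self j
    exact h1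
  obtain ⟨g, hg0, hgE, hgF⟩ := gen (E := E) hZ (fun j g hg => by
      by_contra hcon
      push Not at hcon
      exact (hmem j).2 ⟨g, hcon, Helper423Ceer.computes_iff.2 hg⟩)
    (fun j => (hmem j).1.1)
    (fun j => by
      obtain ⟨f, hf, hfE⟩ := (hmem j).1.2.1
      have h1 := sg_comp (f := fun x : ℕ × ℕ => Nat.pair x.1 x.2) (sg_of_recursiveIn hf)
        (Primrec₂.natPair.comp Primrec.fst Primrec.snd).to_comp
      exact sg_iff h1 fun x => hfE x.1 x.2)
    (fun j => (hmem j).1.2.2)
  have htr : Helper423Ceer.TR {orc (cod g)} g := RecursiveIn.iff_nat.1 (cod_computes g)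
  have hZX : TuringReducible (orc Z) (orc (cod g)) := by
    refine RecursiveIn.iff_nat.2 ?_
    have h1 : Primrec (fun n : ℕ => Nat.pair 0 n) :=
      Primrec₂.natPair.comp (Primrec.const 0) Primrec.id
    have h2 := htr.comp (Helper423Ceer.TR.prim (O := {orc (cod g)}) h1)
    have h3 : orc Z = fun n => Part.some (g (Nat.pair 0 n)) := by
      funext n
      rw [hg0]
      rfl
    rw [h3]
    exact h2
  refine ⟨cod g, hZX, fun E' hE' => ?_, ?_⟩
  · by_cases hd : ComputesDiagonal (orc Z) E'
    · obtain ⟨g', h1, h2⟩ := hd
      exact ⟨g', h1, TuringReducible.trans h2 hZX⟩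
    · obtain ⟨i, rfl⟩ : ∃ i, E i = E' := by
        have h1 : E' ∈ ({E | CeerIn Z E ∧ ¬ ComputesDiagonal (orc Z) E} : Set (ℕ → ℕ → Prop)) :=
          ⟨hE', hd⟩
        rw [hE] at h1
        exact h1
      obtain ⟨L, hL⟩ := hgE i
      obtain ⟨heq, -, u, v, huv⟩ := hE'
      have hdx : ∀ x, ∃ d, ¬ E i d x := by
        intro x
        by_contra hcon
        push Not at hcon
        exact huv (heq.trans (hcon u) (heq.symm (hcon v)))
      choose d hd' using hdx
      refine ⟨fun x => if x < L then ((List.range L).map d).getD x 0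
        else g (Nat.pair (i + 1) x), fun x => ?_, ?_⟩
      · show ¬ E i (if x < L then ((List.range L).map d).getD x 0 else g (Nat.pair (i + 1) x)) x
        by_cases hx : x < L
        · rw [if_pos hx]
          have h1 : ((List.range L).map d).getD x 0 = d x := by
            simp [List.getD, hx]
          rw [h1]
          exact hd' x
        · rw [if_neg hx]
          exact hL x ((not_lt.1 hx).trans (Nat.right_le_pair _ _))
      · refine RecursiveIn.iff_nat.2 ?_
        have h1 : Primrec (fun n : ℕ => Nat.pair (i + 1) n) :=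
          Primrec₂.natPair.comp (Primrec.const (i + 1)) Primrec.id
        have h2 := htr.comp (Helper423Ceer.TR.prim (O := {orc (cod g)}) h1)
        have hl : Primrec (fun q : ℕ => q.unpair.1) := Primrec.fst.comp Primrec.unpair
        have hr : Primrec (fun q : ℕ => q.unpair.2) := Primrec.snd.comp Primrec.unpair
        have h3 : Primrec (fun q : ℕ => if q.unpair.1 < L then
            ((List.range L).map d).getD q.unpair.1 0 else q.unpair.2) :=
          Primrec.ite (Primrec.nat_lt.comp hl (Primrec.const L))
            ((Primrec.list_getD 0).comp (Primrec.const ((List.range L).map d)) hl) hr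
        have h4 := (Helper423Ceer.TR.prim (O := {orc (cod g)}) h3).comp
          ((Helper423Ceer.TR.prim (O := {orc (cod g)}) Primrec.id).pair h2)
        simp only [Nat.unpair_pair, id] at h4
        exact h4
  · intro f h hh hfh hdnc hred
    obtain ⟨F, hF, hFc⟩ := Helper423Ceer.computes_iff.1 hred
    rcases hgF F hF h hh with ⟨n, hn⟩ | ⟨n, v, hs, hv⟩
    · exact hn (f n) (hfh n) ((hFc n (f n)).1 rfl)
    · have h1 : f n = v := (hFc n v).2 hs
      rw [← h1] at hv
      exact hdnc n hv

end Pool.Agent.H268.DG
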