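import Mathlib
import Pool.Agent.H268.DG.Defs

/-!
# T14: Martin-Löf random oracles compute computably bounded DNC functions (Kučera)

Library (`Helper423Ceer`, file `Pool/Graph/R_pool_sql_team_seeded_620a6dc7/Helper423_Ceer/Rand.lean`):
`MLTest V := REPred (fun p : ℕ × ℕ × ℕ => V p.1 p.2.1 p.2.2) ∧
   ∀ m l, {r : ℕ | r < 2 ^ l ∧ ∃ t ≤ l, V m t (r % 2 ^ t)}.ncard * 2 ^ m ≤ 2 ^ l`,
`MLRandom X := ∀ V, MLTest V → ∃ m, ∀ t, ¬ V m t (pre X t)`.

Let `V m t r := m < t ∧ r ∈ eval (ofNat Code t) t`.  For fixed `m, l` and `m < t ≤ l` there is at most one `r_t` with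
`r_t ∈ eval (ofNat Code t) t`, and at most `2 ^ (l - t)` numbers `r < 2 ^ l` with `r % 2 ^ t = r_t`; the sum over `t` from `m + 1`
to `l` is `< 2 ^ (l - m)`.  So `V` is a test, and there is `m` such that `pre Y t ∉ eval (ofNat Code t) t` for all `t > m`.
Let `f t = pre Y t` for `t > m` and, for `t ≤ m`, one of `0, 1` which is not in `eval (ofNat Code t) t` (a finite table).  Then
`f t < 2 ^ t + 2 =: h t`, `f` is DNC and `f` is computable from `Y` (`Helper423Ceer.tr_pre`, `TR.prim`, `TR.comp`, `TR.pair`: with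
a primitive recursive function of `t` and `pre Y t`).
-/

namespace Pool.Agent.H268.DG

open Nat.Partrec (Code)
open Nat.Partrec.Code Encodable Denumerable
open Helper423Ceer (orc pre Computes ComputesDiagonal InDiag NontrivialCeer MLRandom MLTest)

private theorem sum_geom {m l : ℕ} (h : m ≤ l) :
    ∑ t ∈ Finset.Ioc m l, 2 ^ (l - t) + 1 = 2 ^ (l - m) := by
  induction l, h using Nat.le_induction with
  | base => simp
  | succ l hl ih =>
    rw [Finset.sum_Ioc_succ_top hl, Nat.sub_self, pow_zero]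
    have h1 : ∑ t ∈ Finset.Ioc m l, 2 ^ (l + 1 - t) = 2 * ∑ t ∈ Finset.Ioc m l, 2 ^ (l - t) := by
      rw [Finset.mul_sum]
      refine Finset.sum_congr rfl fun t ht => ?_
      rw [Finset.mem_Ioc] at ht
      rw [show l + 1 - t = (l - t) + 1 by omega, pow_succ, mul_comm]
    have h2 : l + 1 - m = (l - m) + 1 := by omega
    rw [h1, h2, pow_succ]
    omega

private theorem card_mod {t l c : ℕ} (h : t ≤ l) :
    ((Finset.range (2 ^ l)).filter fun r => r % 2 ^ t = c).card ≤ 2 ^ (l - t) := by
  have h1 : ((Finset.range (2 ^ l)).filter fun r => r % 2 ^ t = c).card ≤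
      (Finset.range (2 ^ (l - t))).card := by
    refine Finset.card_le_card_of_injOn (fun r => r / 2 ^ t) ?_ ?_
    · intro r hr
      rw [Finset.mem_coe, Finset.mem_filter, Finset.mem_range] at hr
      rw [Finset.mem_coe, Finset.mem_range]
      apply Nat.div_lt_of_lt_mul
      rw [← pow_add, show t + (l - t) = l by omega]
      exact hr.1
    · intro r hr r' hr' hrr
      rw [Finset.mem_coe, Finset.mem_filter, Finset.mem_range] at hr hr'
      simp only at hrr
      rw [← Nat.div_add_mod r (2 ^ t), ← Nat.div_add_mod r' (2 ^ t), hrr, hr.2, hr'.2]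
  rwa [Finset.card_range] at h1

private theorem test : MLTest fun m t r => m < t ∧ r ∈ eval (ofNat Code t) t := by
  classical
  constructor
  · have h1 : Partrec (fun p : ℕ × ℕ × ℕ => (eval (ofNat Code p.2.1) p.2.1).bind fun v =>
        ((if v = p.2.2 ∧ p.1 < p.2.1 then some () else none : Option Unit) : Part Unit)) := by
      refine Partrec.bind (f := fun p : ℕ × ℕ × ℕ => eval (ofNat Code p.2.1) p.2.1)
        (g := fun (p : ℕ × ℕ × ℕ) (v : ℕ) => ((if v = p.2.2 ∧ p.1 < p.2.1 then some ()
          else none : Option Unit) : Part Unit)) ?_ ?_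
      · exact eval_part.comp ((Computable.ofNat Code).comp (Computable.fst.comp Computable.snd))
          (Computable.fst.comp Computable.snd)
      · refine Computable.ofOption (Primrec.to_comp ?_)
        refine Primrec.ite (PrimrecPred.and (Primrec.eq.comp Primrec.snd
          (Primrec.snd.comp (Primrec.snd.comp Primrec.fst))) (Primrec.nat_lt.comp
          (Primrec.fst.comp Primrec.fst) (Primrec.fst.comp (Primrec.snd.comp Primrec.fst))))
          (Primrec.const _) (Primrec.const _)
    refine h1.of_eq fun p => ?_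
    refine Part.ext fun u => ?_
    rw [Part.mem_bind_iff]
    constructor
    · rintro ⟨v, hv, hu⟩
      by_cases h : v = p.2.2 ∧ p.1 < p.2.1
      · obtain ⟨rfl, h'⟩ := h
        exact Part.mem_assert_iff.mpr ⟨⟨h', hv⟩, by cases u; exact Part.mem_some _⟩
      · rw [if_neg h] at hu
        simp at hu
    · intro hu
      obtain ⟨⟨h', hv⟩, _⟩ := Part.mem_assert_iff.mp hu
      refine ⟨p.2.2, hv, ?_⟩
      rw [if_pos ⟨rfl, h'⟩]
      cases u
      simp
  · intro m l
    obtain ⟨v, hv⟩ : ∃ v : ℕ → ℕ, ∀ t r, r ∈ eval (ofNat Code t) t → r = v t := by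
      have : ∀ t, ∃ c, ∀ r, r ∈ eval (ofNat Code t) t → r = c := by
        intro t
        by_cases h : ∃ r, r ∈ eval (ofNat Code t) t
        · obtain ⟨c, hc⟩ := h
          exact ⟨c, fun r hr => Part.mem_unique hr hc⟩
        · exact ⟨0, fun r hr => absurd ⟨r, hr⟩ h⟩
      choose v hv using this
      exact ⟨v, hv⟩
    have hsub : {r : ℕ | r < 2 ^ l ∧ ∃ t ≤ l, m < t ∧ r % 2 ^ t ∈ eval (ofNat Code t) t} ⊆
        (((Finset.Ioc m l).biUnion fun t =>
          (Finset.range (2 ^ l)).filter fun r => r % 2 ^ t = v t : Finset ℕ) : Set ℕ) := by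
      rintro r ⟨hr, t, htl, hmt, hrt⟩
      rw [Finset.mem_coe, Finset.mem_biUnion]
      refine ⟨t, Finset.mem_Ioc.mpr ⟨hmt, htl⟩, ?_⟩
      rw [Finset.mem_filter, Finset.mem_range]
      exact ⟨hr, hv t _ hrt⟩
    have h1 := Set.ncard_le_ncard hsub (Finset.finite_toSet _)
    rw [Set.ncard_coe_finset] at h1
    have h2 : ((Finset.Ioc m l).biUnion fun t =>
        (Finset.range (2 ^ l)).filter fun r => r % 2 ^ t = v t).card ≤
        ∑ t ∈ Finset.Ioc m l, 2 ^ (l - t) := by
      refine Finset.card_biUnion_le.trans (Finset.sum_le_sum fun t ht => ?_)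
      exact card_mod (Finset.mem_Ioc.mp ht).2
    rcases Nat.lt_or_ge l m with hlm | hlm
    · have h3 : Finset.Ioc m l = ∅ := Finset.Ioc_eq_empty_of_le hlm.le
      rw [h3, Finset.sum_empty] at h2
      have h4 : {r : ℕ | r < 2 ^ l ∧ ∃ t ≤ l, m < t ∧
          r % 2 ^ t ∈ eval (ofNat Code t) t}.ncard = 0 := by
        rw [h3] at h1
        omega
      rw [h4, zero_mul]
      exact Nat.zero_le _
    · have h3 := sum_geom hlm
      have h4 : 2 ^ l = 2 ^ (l - m) * 2 ^ m := by
        rw [← pow_add]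
        congr 1
        omega
      have h5 : {r : ℕ | r < 2 ^ l ∧ ∃ t ≤ l, m < t ∧
          r % 2 ^ t ∈ eval (ofNat Code t) t}.ncard ≤ 2 ^ (l - m) := by
        omega
      exact (Nat.mul_le_mul_right _ h5).trans h4.symm.le

theorem ml_dnc {Y : ℕ → Bool} (hY : MLRandom Y) : ¬ NoBdDnc Y := by
  classical
  intro hno
  obtain ⟨m, hm⟩ := hY _ test
  obtain ⟨d, hd1, hd2⟩ : ∃ d : ℕ → ℕ, (∀ t, d t < 2) ∧ ∀ t, d t ∉ eval (ofNat Code t) t := by
    have : ∀ t, ∃ c, c < 2 ∧ c ∉ eval (ofNat Code t) t := by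
      intro t
      by_cases h : 0 ∈ eval (ofNat Code t) t
      · exact ⟨1, by norm_num, fun h1 => absurd (Part.mem_unique h h1) (by norm_num)⟩
      · exact ⟨0, by norm_num, h⟩
    choose d hd using this
    exact ⟨d, fun t => (hd t).1, fun t => (hd t).2⟩
  obtain ⟨L, hL⟩ : ∃ L : List ℕ, ∀ t ≤ m, L.getD t 0 = d t := by
    refine ⟨(List.range (m + 1)).map d, fun t ht => ?_⟩
    have h1 : t < ((List.range (m + 1)).map d).length := by
      rw [List.length_map, List.length_range]
      omega
    rw [List.getD_eq_getElem _ _ h1, List.getElem_map, List.getElem_range]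
  refine hno (fun t => if m < t then pre Y t else L.getD t 0) (fun t => 2 ^ t + 2) ?_ ?_ ?_ ?_
  · exact (Primrec.nat_add.comp Helper423Ceer.prim_pow2 (Primrec.const 2)).to_comp
  · intro t
    have h1 := Helper423Ceer.pre_lt Y t
    by_cases h : m < t
    · simp only [if_pos h]
      omega
    · simp only [if_neg h]
      rw [hL t (by omega)]
      have := hd1 t
      omega
  · intro t
    by_cases h : m < t
    · simp only [if_pos h]
      exact fun h1 => hm t ⟨h, h1⟩
    · simp only [if_neg h]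
      rw [hL t (by omega)]
      exact hd2 t
  · have hF : Primrec (fun q : ℕ => if m < q.unpair.1 then q.unpair.2
        else L.getD q.unpair.1 0) := by
      refine Primrec.ite (Primrec.nat_lt.comp (Primrec.const m)
        (Primrec.fst.comp Primrec.unpair)) (Primrec.snd.comp Primrec.unpair) ?_
      exact (Primrec.list_getD 0).comp (Primrec.const L) (Primrec.fst.comp Primrec.unpair)
    have h1 : Helper423Ceer.TR {orc Y} (fun t => Nat.pair t (pre Y t)) :=
      (Helper423Ceer.TR.prim Primrec.id).pair (Helper423Ceer.tr_pre Y)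
    have h2 := (Helper423Ceer.TR.prim (O := {orc Y}) hF).comp h1
    simp only [Nat.unpair_pair] at h2
    exact RecursiveIn.iff_nat.2 h2

end Pool.Agent.H268.DG
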