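import Mathlib
import Pool.Agent.H268.DG.Defs

/-!
# T15a: the base case, monotonicity, joins

* `base`: if `f` is reducible to the oracle `fun _ => false` then `f` is computable (`orc` of it is the constant function `0`
  which is partial recursive; `TuringReducible` to a partial recursive function gives `Partrec`: Mathlib's
  `TuringReducible.partrec_of_partrec` or similar, in `Mathlib/Computability/TuringDegree.lean`).  If `f = eval c` is total
  and `n = encode c`, then `f n ∈ eval (ofNat Code n) n`.
* `down`: monotonicity by transitivity of `TuringReducible`.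
* `ceerIn_zero`: a ceer is c.e. in any oracle (`REPred` gives a partial recursive `f`, `Nat.Partrec.recursiveIn`).
* `ideal`: `G 0 = fun _ => false`, `G (n+1)` from `rel_thm` applied to `G n`; `I = {X | ∃ n, TuringReducible (orc X) (orc (G n))}`.  The
  sequence is increasing for `TuringReducible`.  `CeerIn` is monotone in the oracle.  For `X, Y ∈ I` below `G n`, the join
  `fun k => if k % 2 = 0 then X (k / 2) else Y (k / 2)` is below `G n` (`Helper423Ceer.TR`).
-/

namespace Pool.Agent.H268.DG

open Nat.Partrec (Code)
open Nat.Partrec.Code Encodable Denumerable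
open Helper423Ceer (orc pre Computes ComputesDiagonal InDiag NontrivialCeer MLRandom MLTest)

theorem base : NoBdDnc (fun _ => false) := by
  intro f h _ _ hd hred
  have h1 : TuringReducible (fun n => Part.some (f n)) (fun _ => Part.some 0) := hred
  have h2 : Partrec (fun n => Part.some (f n) : ℕ →. ℕ) := h1.partrec_of_const
  obtain ⟨c, hc⟩ := exists_code.1 (Partrec.nat_iff.1 h2)
  apply hd (encode c)
  rw [Denumerable.ofNat_encode, hc]
  exact Part.mem_some _

theorem down {X Y : ℕ → Bool} (h : TuringReducible (orc X) (orc Y)) (hY : NoBdDnc Y) :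
    NoBdDnc X := by
  intro f b hb hlt hd hred
  exact hY f b hb hlt hd (hred.trans h)

theorem ceerIn_of_ceer (Z : ℕ → Bool) {E : ℕ → ℕ → Prop} (h : NontrivialCeer E) : CeerIn Z E := by
  obtain ⟨h1, h2, h3⟩ := h
  refine ⟨h1, ⟨fun n => (Part.assert (E n.unpair.1 n.unpair.2) fun _ => Part.some ()).map
    fun _ => 0, ?_, ?_⟩, h3⟩
  · have h4 : Partrec fun n : ℕ =>
        Part.assert (E n.unpair.1 n.unpair.2) fun _ => Part.some () :=
      Partrec.comp (f := fun p : ℕ × ℕ => Part.assert (E p.1 p.2) fun _ => Part.some ()) h2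
        (Computable.unpair)
    have h5 : Partrec fun n : ℕ =>
        (Part.assert (E n.unpair.1 n.unpair.2) fun _ => Part.some ()).map fun _ => 0 :=
      h4.map (Computable.const 0).to₂
    exact h5.turingReducible
  · intro x y
    dsimp only
    rw [Nat.unpair_pair]
    constructor
    · intro hxy
      exact ⟨hxy, trivial⟩
    · rintro ⟨hxy, -⟩
      exact hxy

theorem join_le {X Y W : ℕ → Bool} (hX : TuringReducible (orc X) (orc W))
    (hY : TuringReducible (orc Y) (orc W)) :
    TuringReducible (orc (fun k => if k % 2 = 0 then X (k / 2) else Y (k / 2))) (orc W) := by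
  refine RecursiveIn.iff_nat.2 ?_
  have hX' : Helper423Ceer.TR {orc W} (fun n => (X n).toNat) := RecursiveIn.iff_nat.1 hX
  have hY' : Helper423Ceer.TR {orc W} (fun n => (Y n).toNat) := RecursiveIn.iff_nat.1 hY
  have e2 : Primrec (fun k : ℕ => k / 2) := Primrec.nat_div.comp Primrec.id (Primrec.const 2)
  have e1 : Primrec (fun k : ℕ => k % 2) := Primrec.nat_mod.comp Primrec.id (Primrec.const 2)
  have h3 : Primrec (fun r : ℕ => if r.unpair.1 = 0 then r.unpair.2.unpair.1 else
      r.unpair.2.unpair.2) := by
    have a1 : Primrec (fun r : ℕ => r.unpair.1) := Primrec.fst.comp Primrec.unpair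
    have a2 : Primrec (fun r : ℕ => r.unpair.2) := Primrec.snd.comp Primrec.unpair
    exact Primrec.ite (Primrec.eq.comp a1 (Primrec.const 0)) (a1.comp a2) (a2.comp a2)
  have h4 := (Helper423Ceer.TR.prim (O := {orc W}) h3).comp
    ((Helper423Ceer.TR.prim e1).pair ((hX'.comp (Helper423Ceer.TR.prim e2)).pair
      (hY'.comp (Helper423Ceer.TR.prim e2))))
  have h5 : (fun n => if (Nat.pair (n % 2) (Nat.pair (X (n / 2)).toNat (Y (n / 2)).toNat)).unpair.1
      = 0 then (Nat.pair (n % 2) (Nat.pair (X (n / 2)).toNat
        (Y (n / 2)).toNat)).unpair.2.unpair.1 else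
      (Nat.pair (n % 2) (Nat.pair (X (n / 2)).toNat (Y (n / 2)).toNat)).unpair.2.unpair.2) =
      fun k => (if k % 2 = 0 then X (k / 2) else Y (k / 2)).toNat := by
    funext k
    simp only [Nat.unpair_pair]
    split_ifs <;> rfl
  rw [h5] at h4
  exact h4

end Pool.Agent.H268.DG
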