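import Mathlib
import Pool.Agent.H268.DG.T13
import Pool.Agent.H268.DG.T15a

/-!
# T15: the base case, the iteration, the ideal

`T13.lean` (`rel_thm`) and `T15a.lean` (`base`, `down`, `ceerIn_of_ceer`, `join_le`) may be used; only `ideal` is to be proved.

* `base`: if `f` is reducible to the oracle `fun _ => false` then `f` is computable (`orc` of it is the constant function `0`
  which is partial recursive; `TuringReducible` to a partial recursive function gives `Partrec`: Mathlib's
  `TuringReducible.partrec_of_partrec` or similar, in `Mathlib/Computability/TuringDegree.lean`).  If `f = eval c` is total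
  and `n = encode c`, then `f n ∈ eval (ofNat Code n) n`.
* `down`: monotonicity by transitivity of `TuringReducible`.
* `ceerIn_zero`: a ceer is c.e. in any oracle (`REPred` gives a partial recursive `f`, `Nat.Partrec.recursiveIn`).
* `ideal`: `G 0 = fun _ => false`, `G (n+1)` from `rel_thm` applied to `G n`; `I = {X | ∃ n, TuringReducible (orc X) (orc (G n))}`.  The
  sequence is increasing for `TuringReducible`.  `CeerIn` is monotone in the oracle.  For `X, Y ∈ I` below `G n`, the join
  `fun k => if k % 2 = 0 then X (k / 2) else Y (k / 2)` is below `G n` (`Helper423Ceer.TR`).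
-/

namespace Pool.Agent.H268.DG

open Nat.Partrec (Code)
open Nat.Partrec.Code Encodable Denumerable
open Helper423Ceer (orc pre Computes ComputesDiagonal InDiag NontrivialCeer MLRandom MLTest)

/-- the increasing sequence of oracles -/
private noncomputable def seqG : ℕ → {Z : ℕ → Bool // NoBdDnc Z}
  | 0 => ⟨fun _ => false, base⟩
  | n + 1 => ⟨(rel_thm (seqG n).2).choose, (rel_thm (seqG n).2).choose_spec.2.2⟩

private theorem seqG_step (n : ℕ) :
    TuringReducible (orc (seqG n).1) (orc (seqG (n + 1)).1) ∧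
      ∀ E, CeerIn (seqG n).1 E → ComputesDiagonal (orc (seqG (n + 1)).1) E :=
  ⟨(rel_thm (seqG n).2).choose_spec.1, (rel_thm (seqG n).2).choose_spec.2.1⟩

private theorem seqG_mono {n m : ℕ} (h : n ≤ m) :
    TuringReducible (orc (seqG n).1) (orc (seqG m).1) := by
  induction m, h using Nat.le_induction with
  | base => exact TuringReducible.refl _
  | succ m _ ih => exact ih.trans (seqG_step m).1

theorem ideal : ∃ I : Set (ℕ → Bool), I.Nonempty ∧
    (∀ X ∈ I, ∀ Y, TuringReducible (orc Y) (orc X) → Y ∈ I) ∧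
    (∀ X ∈ I, ∀ Y ∈ I, (fun k => if k % 2 = 0 then X (k / 2) else Y (k / 2)) ∈ I) ∧
    (∀ Z ∈ I, ∀ E, CeerIn Z E → ∃ X ∈ I, ComputesDiagonal (orc X) E) ∧
    ∀ X ∈ I, NoBdDnc X := by
  refine ⟨{X | ∃ n, TuringReducible (orc X) (orc (seqG n).1)},
    ⟨(seqG 0).1, 0, TuringReducible.refl _⟩, ?_, ?_, ?_, ?_⟩
  · rintro X ⟨n, hn⟩ Y hY
    exact ⟨n, hY.trans hn⟩
  · rintro X ⟨n, hn⟩ Y ⟨m, hm⟩
    exact ⟨max n m, join_le (hn.trans (seqG_mono (le_max_left n m)))
      (hm.trans (seqG_mono (le_max_right n m)))⟩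
  · rintro Z ⟨n, hn⟩ E ⟨hE, ⟨f, hf, hfE⟩, hne⟩
    refine ⟨(seqG (n + 1)).1, ⟨n + 1, TuringReducible.refl _⟩, (seqG_step n).2 E ?_⟩
    exact ⟨hE, ⟨f, hf.trans hn, hfE⟩, hne⟩
  · rintro X ⟨n, hn⟩
    exact down hn (seqG n).2

end Pool.Agent.H268.DG
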